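import Mathlib
import Pool.Agent.H916R2.OddChar

/-!
# The arithmetic core: vanishing Stickelberger sums force a primitive root
-/

set_option autoImplicit false

namespace Pool.Agent.R415.CH

open Finset Pool.Agent.H916R2

theorem char_eq_one {ℓ r : ℕ} [Fact ℓ.Prime] (χ : MulChar (ZMod ℓ) ℂ) (hr : 0 < r)
    (hrl : r ∣ ℓ - 1) (hχ : χ ^ r = 1) (x : (ZMod ℓ)ˣ) (hx : x ^ ((ℓ - 1) / r) = 1) :
    χ (x : ZMod ℓ) = 1 := by
  obtain ⟨g, hg⟩ := IsCyclic.exists_generator (α := (ZMod ℓ)ˣ)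
  have hgo : orderOf g = ℓ - 1 := by
    rw [orderOf_eq_card_of_forall_mem_zpowers hg, Nat.card_eq_fintype_card, ZMod.card_units]
  obtain ⟨k, hk⟩ := mem_powers_iff_mem_zpowers.2 (hg x)
  have hk' : g ^ k = x := hk
  have hl1 : 0 < ℓ - 1 := by
    have := (Fact.out : ℓ.Prime).two_le
    omega
  have h1 : ℓ - 1 ∣ k * ((ℓ - 1) / r) := by
    rw [← hgo]
    apply orderOf_dvd_of_pow_eq_one
    rw [hgo, pow_mul, hk', hx]
  obtain ⟨m, hm⟩ := hrl
  have hm0 : 0 < m := by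
    rcases Nat.eq_zero_or_pos m with h | h
    · rw [h, mul_zero] at hm
      omega
    · exact h
  have h2 : (ℓ - 1) / r = m := by
    rw [hm]
    exact Nat.mul_div_cancel_left m hr
  rw [h2, hm] at h1
  have h3 : r ∣ k := Nat.dvd_of_mul_dvd_mul_right hm0 h1
  obtain ⟨j, hj⟩ := h3
  rw [← hk', hj]
  have h4 : χ (g : ZMod ℓ) ^ r = 1 := by
    rw [← MulChar.pow_apply_coe, hχ, MulChar.one_apply_coe]
  rw [Units.val_pow_eq_pow_val, map_pow, pow_mul, h4, one_pow]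

theorem exists_prime_dvd {n m : ℕ} (hm : 0 < m) (h : n ∣ m) (hne : n ≠ m) :
    ∃ r : ℕ, r.Prime ∧ r ∣ m ∧ n ∣ m / r := by
  obtain ⟨k, rfl⟩ := h
  have hn : 0 < n := Nat.pos_of_mul_pos_right hm |> fun _ => Nat.pos_of_ne_zero (by
    rintro rfl
    simp at hm)
  have hk : k ≠ 1 := by
    rintro rfl
    simp at hne
  obtain ⟨r, hr, hrk⟩ := Nat.exists_prime_and_dvd hk
  refine ⟨r, hr, hrk.mul_left n, ?_⟩
  obtain ⟨j, rfl⟩ := hrk
  rw [show n * (r * j) = r * (n * j) by ring, Nat.mul_div_cancel_left _ hr.pos]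
  exact dvd_mul_right _ _

theorem SS_mul {m : ℕ} [NeZero m] (χ : DirichletCharacter ℂ m) (v : (ZMod m)ˣ) (a : ZMod m) :
    χ v * SS χ ((v : ZMod m) * a) = SS χ a := by
  unfold SS
  rw [mul_sum, ← Equiv.sum_comp (Equiv.mulRight v) (fun t : (ZMod m)ˣ => χ t * (saw ((t : ZMod m) * a) : ℂ))]
  refine sum_congr rfl fun t _ => ?_
  rw [Equiv.coe_mulRight, Units.val_mul, map_mul, ← mul_assoc, mul_comm (χ v) (χ t), mul_assoc ((t : ZMod m)) (v : ZMod m) a]

theorem arith (ℓ p F : ℕ) [Fact ℓ.Prime] [NeZero (4 * ℓ)] (hℓ : ℓ % 4 = 1) (hp : p % 4 = 1)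
    (hpl : ¬ ℓ ∣ p) (hF : 0 < F)
    (h : ∀ b : (ZMod (4 * ℓ))ˣ,
      ∑ s ∈ range F, saw ((b : ZMod (4 * ℓ)) * (p : ZMod (4 * ℓ)) ^ s) =
        ∑ s ∈ range F, saw ((b : ZMod (4 * ℓ)) * (((1 + 2 * ℓ : ℕ) : ZMod (4 * ℓ)) *
          (p : ZMod (4 * ℓ)) ^ s))) :
    orderOf (p : ZMod ℓ) = ℓ - 1 := by
  have hℓp : ℓ.Prime := Fact.out
  have hℓ2 := hℓp.two_le
  have hcop4 : Nat.Coprime 4 ℓ := by
    have : Nat.Coprime 2 ℓ := by
      rw [Nat.coprime_primes Nat.prime_two hℓp]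
      omega
    exact Nat.Coprime.pow_left 2 this
  have hpcop : Nat.Coprime p ℓ := ((Nat.Prime.coprime_iff_not_dvd hℓp).2 hpl).symm
  set up : (ZMod ℓ)ˣ := ZMod.unitOfCoprime p hpcop with hup
  by_contra hcon
  have hn : orderOf (p : ZMod ℓ) = orderOf up := by
    rw [← orderOf_units, hup, ZMod.coe_unitOfCoprime]
  have hdvd : orderOf up ∣ ℓ - 1 := by
    rw [← ZMod.card_units ℓ]
    exact orderOf_dvd_card
  rw [hn] at hcon
  obtain ⟨r, hr, hrl, hnr⟩ := exists_prime_dvd (by omega : 0 < ℓ - 1) hdvd hcon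
  -- the character modulo ℓ
  have hrC : IsPrimitiveRoot (Complex.exp (2 * Real.pi * Complex.I / (r : ℂ))) r :=
    Complex.isPrimitiveRoot_exp r hr.ne_zero
  obtain ⟨ξ, hξ⟩ := MulChar.exists_mulChar_orderOf (ZMod ℓ) (n := r)
    (by rw [ZMod.card]; exact hrl) hrC
  have hξr : ξ ^ r = 1 := by rw [← hξ]; exact pow_orderOf_eq_one ξ
  have hξp : ξ (p : ZMod ℓ) = 1 := by
    have h1 := char_eq_one ξ hr.pos hrl hξr up (by
      obtain ⟨j, hj⟩ := hnr
      rw [hj, pow_mul, pow_orderOf_eq_one, one_pow])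
    rwa [hup, ZMod.coe_unitOfCoprime] at h1
  have hξm : ξ (-1 : ZMod ℓ) = 1 := by
    have h1 := char_eq_one ξ hr.pos hrl hξr (-1) (by
      have h2 : Even ((ℓ - 1) / r) := by
        rw [← Nat.not_odd_iff_even]
        intro hodd
        obtain ⟨j, hj⟩ := hrl
        rw [hj, Nat.mul_div_cancel_left _ hr.pos] at hodd
        have h3 : 4 ∣ r * j := by omega
        have h4 : Nat.Coprime 4 j := by
          have : Nat.Coprime 2 j := Nat.coprime_two_left.2 hodd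
          exact Nat.Coprime.pow_left 2 this
        have h5 : 4 ∣ r := h4.dvd_of_dvd_mul_right h3
        have h6 : 2 ∣ r := (by norm_num : (2 : ℕ) ∣ 4).trans h5
        have h7 : r = 2 := ((Nat.prime_dvd_prime_iff_eq Nat.prime_two hr).1 h6).symm
        omega
      exact h2.neg_one_pow)
    simpa using h1
  have hξ1 : ξ ≠ 1 := by
    intro h0
    rw [h0, orderOf_one] at hξ
    exact hr.one_lt.ne hξ
  obtain ⟨y, hy⟩ : ∃ y : (ZMod ℓ)ˣ, ξ y ≠ 1 := by
    by_contra h0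
    push Not at h0
    apply hξ1
    ext u
    rw [h0 u, MulChar.one_apply_coe]
  -- the character modulo 4ℓ
  set χ4 : DirichletCharacter ℂ 4 := ZMod.χ₄.ringHomComp (Int.castRingHom ℂ) with hχ4
  have hd4 : 4 ∣ 4 * ℓ := dvd_mul_right _ _
  have hdl : ℓ ∣ 4 * ℓ := dvd_mul_left _ _
  set χ : DirichletCharacter ℂ (4 * ℓ) :=
    DirichletCharacter.changeLevel hd4 χ4 * DirichletCharacter.changeLevel hdl ξ with hχ
  have hval : ∀ n : ℕ, Nat.Coprime n (4 * ℓ) →
      χ (n : ZMod (4 * ℓ)) = ((ZMod.χ₄ (n : ZMod 4) : ℤ) : ℂ) * ξ (n : ZMod ℓ) := by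
    intro n hn
    set un := ZMod.unitOfCoprime n hn with hun
    have e1 : ((un : (ZMod (4 * ℓ))ˣ) : ZMod (4 * ℓ)) = (n : ZMod (4 * ℓ)) :=
      ZMod.coe_unitOfCoprime n hn
    rw [hχ, MulChar.mul_apply, ← e1, DirichletCharacter.changeLevel_eq_cast_of_dvd,
      DirichletCharacter.changeLevel_eq_cast_of_dvd, e1, ZMod.cast_natCast hd4,
      ZMod.cast_natCast hdl, hχ4, MulChar.ringHomComp_apply]
    rfl
  have hcopp : Nat.Coprime p (4 * ℓ) := by
    apply Nat.Coprime.mul_right _ hpcop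
    have : Nat.Coprime p 2 := Nat.coprime_two_right.2 (by rw [Nat.odd_iff]; omega)
    exact Nat.Coprime.pow_right 2 this
  have hχp : χ (p : ZMod (4 * ℓ)) = 1 := by
    rw [hval p hcopp, hξp, mul_one, ZMod.χ₄_nat_one_mod_four hp]
    simp
  have hcope : Nat.Coprime (1 + 2 * ℓ) (4 * ℓ) := by
    apply Nat.Coprime.mul_right
    · have : Nat.Coprime (1 + 2 * ℓ) 2 := Nat.coprime_two_right.2 (by rw [Nat.odd_iff]; omega)
      exact Nat.Coprime.pow_right 2 this
    · rw [Nat.coprime_iff_gcd_eq_one, Nat.gcd_add_mul_right_left]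
      simp
  have hχe : χ ((1 + 2 * ℓ : ℕ) : ZMod (4 * ℓ)) = -1 := by
    rw [hval _ hcope]
    have h1 : ((1 + 2 * ℓ : ℕ) : ZMod ℓ) = 1 := by
      push_cast
      simp
    rw [h1, map_one, mul_one, ZMod.χ₄_nat_three_mod_four (by omega)]
    simp
  have hodd : χ.Odd := by
    unfold DirichletCharacter.Odd
    have h1 : ((4 * ℓ - 1 : ℕ) : ZMod (4 * ℓ)) = -1 := by
      rw [Nat.cast_sub (by omega)]
      simp
    have hc : Nat.Coprime (4 * ℓ - 1) (4 * ℓ) := by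
      have := Nat.coprime_self_sub_left (m := 1) (n := 4 * ℓ) (by omega)
      rw [this]
      simp
    rw [← h1, hval _ hc]
    have h2 : ((4 * ℓ - 1 : ℕ) : ZMod ℓ) = -1 := by
      rw [Nat.cast_sub (by omega)]
      simp
    rw [h2, hξm, mul_one, ZMod.χ₄_nat_three_mod_four (by omega)]
    simp
  -- the unit c
  obtain ⟨c, hc4, hcl⟩ : ∃ c : ℕ, c ≡ 1 [MOD 4] ∧ c ≡ (y : ZMod ℓ).val [MOD ℓ] :=
    ⟨_, (Nat.chineseRemainder hcop4 1 (y : ZMod ℓ).val).2⟩
  have hcy : (c : ZMod ℓ) = y := by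
    have := (ZMod.natCast_eq_natCast_iff c ((y : ZMod ℓ).val) ℓ).2 hcl
    rw [this, ZMod.natCast_val, ZMod.cast_id]
  have hc4' : c % 4 = 1 := hc4
  have hcc : Nat.Coprime c (4 * ℓ) := by
    apply Nat.Coprime.mul_right
    · have : Nat.Coprime c 2 := Nat.coprime_two_right.2 (by rw [Nat.odd_iff]; omega)
      exact Nat.Coprime.pow_right 2 this
    · rw [← ZMod.isUnit_iff_coprime, hcy]
      exact y.isUnit
  have hχc : χ (c : ZMod (4 * ℓ)) ≠ 1 := by
    rw [hval c hcc, hcy, ZMod.χ₄_nat_one_mod_four hc4']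
    simpa using hy
  set ue := ZMod.unitOfCoprime _ hcope with hue
  set uc := ZMod.unitOfCoprime _ hcc with huc
  set u := ZMod.unitOfCoprime _ hcopp with hu
  have eue : (ue : ZMod (4 * ℓ)) = ((1 + 2 * ℓ : ℕ) : ZMod (4 * ℓ)) := ZMod.coe_unitOfCoprime _ _
  have euc : (uc : ZMod (4 * ℓ)) = (c : ZMod (4 * ℓ)) := ZMod.coe_unitOfCoprime _ _
  have eu : (u : ZMod (4 * ℓ)) = (p : ZMod (4 * ℓ)) := ZMod.coe_unitOfCoprime _ _
  -- the vanishing
  have hSS : SS χ 1 = 0 := by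
    have h1 : ∑ b : (ZMod (4 * ℓ))ˣ, χ b * ((∑ s ∈ range F, saw ((b : ZMod (4 * ℓ)) *
        (p : ZMod (4 * ℓ)) ^ s) : ℤ) : ℂ) = F * SS χ 1 := by
      have e : ∀ s : ℕ, SS χ ((p : ZMod (4 * ℓ)) ^ s) = SS χ 1 := by
        intro s
        have h2 := SS_mul χ (u ^ s) 1
        rw [Units.val_pow_eq_pow_val, eu, map_pow, hχp, one_pow, one_mul, mul_one] at h2
        exact h2
      have e2 : ∑ s ∈ range F, SS χ ((p : ZMod (4 * ℓ)) ^ s) = F * SS χ 1 := by
        rw [sum_congr rfl fun s _ => e s, sum_const, card_range, nsmul_eq_mul]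
      rw [← e2]
      unfold SS
      rw [sum_comm]
      refine sum_congr rfl fun b _ => ?_
      push_cast
      rw [mul_sum]
    have h2 : ∑ b : (ZMod (4 * ℓ))ˣ, χ b * ((∑ s ∈ range F, saw ((b : ZMod (4 * ℓ)) *
        (((1 + 2 * ℓ : ℕ) : ZMod (4 * ℓ)) * (p : ZMod (4 * ℓ)) ^ s)) : ℤ) : ℂ) =
          F * (- SS χ 1) := by
      have e : ∀ s : ℕ, SS χ (((1 + 2 * ℓ : ℕ) : ZMod (4 * ℓ)) * (p : ZMod (4 * ℓ)) ^ s) =
          - SS χ 1 := by
        intro s
        have h2 := SS_mul χ (ue * u ^ s) 1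
        rw [Units.val_mul, Units.val_pow_eq_pow_val, eu, eue, map_mul, map_pow, hχp, one_pow,
          mul_one, mul_one, hχe] at h2
        rw [← h2]
        ring
      have e2 : ∑ s ∈ range F, SS χ (((1 + 2 * ℓ : ℕ) : ZMod (4 * ℓ)) *
          (p : ZMod (4 * ℓ)) ^ s) = F * (- SS χ 1) := by
        rw [sum_congr rfl fun s _ => e s, sum_const, card_range, nsmul_eq_mul]
      rw [← e2]
      unfold SS
      rw [sum_comm]
      refine sum_congr rfl fun b _ => ?_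
      push_cast
      rw [mul_sum]
    have h3 : (F : ℂ) * SS χ 1 = F * (- SS χ 1) := by
      rw [← h1, ← h2]
      refine sum_congr rfl fun b _ => ?_
      rw [h b]
    have hF' : (F : ℂ) ≠ 0 := by exact_mod_cast hF.ne'
    have h4 := mul_left_cancel₀ hF' h3
    have h5 : (2 : ℂ) * SS χ 1 = 0 := by linear_combination h4
    simpa using h5
  obtain ⟨a, ha⟩ := exists_SS_ne_zero χ hodd
  apply ha
  by_cases hau : IsUnit a
  · obtain ⟨v, rfl⟩ := hau
    have h1 := SS_mul χ v 1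
    rw [mul_one, hSS] at h1
    rcases mul_eq_zero.1 h1 with h2 | h2
    · exact absurd h2 (v.isUnit.map χ).ne_zero
    · exact h2
  · have hcop : ¬ Nat.Coprime a.val (4 * ℓ) := by
      intro h0
      apply hau
      have := (ZMod.isUnit_iff_coprime a.val (4 * ℓ)).2 h0
      rwa [ZMod.natCast_val, ZMod.cast_id] at this
    have hae : a = ((a.val : ℕ) : ZMod (4 * ℓ)) := by
      rw [ZMod.natCast_val, ZMod.cast_id]
    by_cases h2a : 2 ∣ a.val
    · have h1 := SS_mul χ ue a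
      have h3 : (ue : ZMod (4 * ℓ)) * a = a := by
        obtain ⟨k, hk⟩ := h2a
        rw [eue, hae, hk, ← Nat.cast_mul, ZMod.natCast_eq_natCast_iff]
        have : (1 + 2 * ℓ) * (2 * k) = 2 * k + (4 * ℓ) * k := by ring
        rw [this]
        exact Nat.add_mul_mod_self_left _ _ _
      rw [h3, eue, hχe] at h1
      have h5 : (2 : ℂ) * SS χ a = 0 := by linear_combination -h1
      simpa using h5
    · have h3a : ℓ ∣ a.val := by
        by_contra h0
        apply hcop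
        apply Nat.Coprime.mul_right
        · have : Nat.Coprime a.val 2 := Nat.coprime_two_right.2 (by
            rw [Nat.odd_iff]; omega)
          exact Nat.Coprime.pow_right 2 this
        · exact ((Nat.Prime.coprime_iff_not_dvd hℓp).2 h0).symm
      have h1 := SS_mul χ uc a
      have h3 : (uc : ZMod (4 * ℓ)) * a = a := by
        obtain ⟨k, hk⟩ := h3a
        obtain ⟨j, hj⟩ : ∃ j, c = 1 + 4 * j := ⟨c / 4, by omega⟩
        rw [euc, hae, hk, hj, ← Nat.cast_mul, ZMod.natCast_eq_natCast_iff]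
        have : (1 + 4 * j) * (ℓ * k) = ℓ * k + (4 * ℓ) * (j * k) := by ring
        rw [this]
        exact Nat.add_mul_mod_self_left _ _ _
      rw [h3, euc] at h1
      have h5 : (χ (c : ZMod (4 * ℓ)) - 1) * SS χ a = 0 := by linear_combination h1
      rcases mul_eq_zero.1 h5 with h6 | h6
      · exact absurd (sub_eq_zero.1 h6) hχc
      · exact h6

end Pool.Agent.R415.CH
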