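import Mathlib

/-!
# Counting `x = t + 1 / t` over a finite field
-/

set_option autoImplicit false
set_option linter.unusedSectionVars false

namespace Pool.Agent.R415.CH

open Finset

section

variable {F E : Type} [Field F] [Fintype F] [DecidableEq F] [Field E] [Fintype E] [DecidableEq E]
  [Algebra F E]

theorem card_E (hE : Module.finrank F E = 2) : Fintype.card E = Fintype.card F ^ 2 := by
  rw [Module.card_eq_pow_finrank (K := F) (V := E), hE]

theorem tr_eq (hE : Module.finrank F E = 2) (y : E) :
    algebraMap F E (Algebra.trace F E y) = y + y ^ Fintype.card F := by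
  rw [FiniteField.algebraMap_trace_eq_sum_pow, hE, sum_range_succ, sum_range_one, pow_zero,
    pow_one, pow_one, Nat.card_eq_fintype_card]

theorem nm_eq (hE : Module.finrank F E = 2) (y : E) :
    algebraMap F E (Algebra.norm F y) = y ^ (Fintype.card F + 1) := by
  rw [FiniteField.algebraMap_norm_eq_pow, Nat.card_eq_fintype_card, Nat.card_eq_fintype_card,
    card_E hE]
  congr 1
  have h1 : 1 < Fintype.card F := Fintype.one_lt_card
  have h2 : Fintype.card F ^ 2 - 1 = (Fintype.card F + 1) * (Fintype.card F - 1) := by
    have := Nat.sq_sub_sq (Fintype.card F) 1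
    rwa [one_pow] at this
  rw [h2, Nat.mul_div_cancel _ (by omega)]

theorem alg_pow (x : F) : (algebraMap F E x) ^ Fintype.card F = algebraMap F E x := by
  rw [← map_pow, FiniteField.pow_card]

theorem two_ne (h2 : ringChar F ≠ 2) : (2 : F) ≠ 0 := Ring.two_ne_zero h2

theorem two_neE (h2 : ringChar F ≠ 2) : (2 : E) ≠ 0 := by
  have h := two_ne h2
  intro h0
  apply h
  apply (algebraMap F E).injective
  rw [map_ofNat, h0, map_zero]

/-- an element fixed by Frobenius lies in the small field -/
theorem exists_of_fixed (h2 : ringChar F ≠ 2) (hE : Module.finrank F E = 2) {y : E}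
    (hy : y ^ Fintype.card F = y) : ∃ x : F, algebraMap F E x = y := by
  refine ⟨Algebra.trace F E y / 2, ?_⟩
  rw [map_div₀, tr_eq hE, hy, map_ofNat]
  have := two_neE (E := E) h2
  field_simp
  ring

theorem exists_sqrt (h2 : ringChar F ≠ 2) (hE : Module.finrank F E = 2) (a : F) :
    ∃ δ : E, δ ^ 2 = algebraMap F E a := by
  by_cases ha : a = 0
  · exact ⟨0, by rw [ha, map_zero]; ring⟩
  have hchar : ringChar E ≠ 2 := by
    intro h
    have h3 : ((2 : ℕ) : E) = 0 := by
      rw [ringChar.spec, h]
    exact two_neE (E := E) h2 (by exact_mod_cast h3)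
  have ha' : algebraMap F E a ≠ 0 := by
    rw [Ne, map_eq_zero]
    exact ha
  have h1 : IsSquare (algebraMap F E a) := by
    rw [FiniteField.isSquare_iff hchar ha', card_E hE]
    have hodd := FiniteField.odd_card_of_char_ne_two h2
    obtain ⟨m, hm⟩ : ∃ m, Fintype.card F = 2 * m + 1 := ⟨Fintype.card F / 2, by omega⟩
    have h3 : Fintype.card F ^ 2 / 2 = (Fintype.card F - 1) * (m + 1) := by
      rw [hm]
      have : (2 * m + 1) ^ 2 = 2 * (2 * m * (m + 1)) + 1 := by ring
      rw [this]
      have h5 : 2 * m + 1 - 1 = 2 * m := by omega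
      rw [h5]
      omega
    rw [h3, pow_mul, ← map_pow, FiniteField.pow_card_sub_one_eq_one a ha, map_one, one_pow]
  obtain ⟨δ, hδ⟩ := h1
  exact ⟨δ, by rw [hδ]; ring⟩

theorem count (h2 : ringChar F ≠ 2) (hE : Module.finrank F E = 2) (x : F) :
    (univ.filter (fun t : F => t ≠ 0 ∧ t + t⁻¹ = x)).card +
      (univ.filter (fun y : E => Algebra.norm F y = 1 ∧ Algebra.trace F E y = x)).card = 2 := by
  set Q := Fintype.card F with hQ
  have h2F := two_ne h2
  have h2E := two_neE (E := E) h2
  have hinj := (algebraMap F E).injective
  obtain ⟨δ, hδ⟩ := exists_sqrt (E := E) h2 hE (x ^ 2 - 4)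
  -- membership in the second set
  have hmem : ∀ y : E, (Algebra.norm F y = 1 ∧ Algebra.trace F E y = x) ↔
      (y ^ Q = algebraMap F E x - y ∧ (2 * y - algebraMap F E x) ^ 2 = δ ^ 2) := by
    intro y
    have h1 : Algebra.norm F y = 1 ↔ y ^ (Q + 1) = 1 := by
      rw [← nm_eq hE, ← map_one (algebraMap F E)]
      exact ⟨fun h => by rw [h], fun h => hinj h⟩
    have h3 : Algebra.trace F E y = x ↔ y ^ Q = algebraMap F E x - y := by
      rw [eq_sub_iff_add_eq, add_comm, ← tr_eq hE]
      exact ⟨fun h => by rw [h], fun h => hinj h⟩
    rw [h1, h3, pow_succ, hδ, map_sub, map_pow, map_ofNat]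
    constructor
    · rintro ⟨h4, h5⟩
      refine ⟨h5, ?_⟩
      rw [h5] at h4
      linear_combination -4 * h4
    · rintro ⟨h5, h4⟩
      refine ⟨?_, h5⟩
      rw [h5]
      have h6 : (4 : E) ≠ 0 := by
        have : (4 : E) = 2 * 2 := by norm_num
        rw [this]
        exact mul_ne_zero h2E h2E
      apply mul_left_cancel₀ h6
      linear_combination -h4
  have hmem1 : ∀ t : F, (t ≠ 0 ∧ t + t⁻¹ = x) ↔ (2 * t - x) ^ 2 = x ^ 2 - 4 := by
    intro t
    constructor
    · rintro ⟨h3, h4⟩
      have h5 : t * t + 1 = x * t := by
        rw [← h4]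
        field_simp
      linear_combination 4 * h5
    · intro h3
      have h6 : (4 : F) ≠ 0 := by
        have : (4 : F) = 2 * 2 := by norm_num
        rw [this]
        exact mul_ne_zero h2F h2F
      have h5 : t * (x - t) = 1 := by
        apply mul_left_cancel₀ h6
        linear_combination -h3
      have h7 : t ≠ 0 := by
        rintro rfl
        simp at h5
      refine ⟨h7, ?_⟩
      rw [← eq_inv_of_mul_eq_one_right h5]
      ring
  by_cases hx : x ^ 2 - 4 = 0
  · have e1 : univ.filter (fun t : F => t ≠ 0 ∧ t + t⁻¹ = x) = {x / 2} := by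
      ext t
      rw [mem_filter, mem_singleton, hmem1, hx, eq_div_iff h2F]
      constructor
      · rintro ⟨-, h⟩
        have := pow_eq_zero_iff (two_ne_zero) |>.1 h
        linear_combination this
      · intro h
        refine ⟨mem_univ _, ?_⟩
        rw [← h]
        ring
    have e2 : univ.filter (fun y : E => Algebra.norm F y = 1 ∧ Algebra.trace F E y = x) =
        {algebraMap F E (x / 2)} := by
      have hδ0 : δ = 0 := by
        rw [hx, map_zero] at hδ
        exact pow_eq_zero_iff (two_ne_zero) |>.1 hδ
      ext y
      rw [mem_filter, mem_singleton, hmem, hδ0, map_div₀, map_ofNat, eq_div_iff h2E]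
      constructor
      · rintro ⟨-, -, h⟩
        have := pow_eq_zero_iff (two_ne_zero) |>.1 (h.trans (by ring : (0 : E) ^ 2 = 0))
        linear_combination this
      · intro h
        refine ⟨mem_univ _, ?_, ?_⟩
        · have h3 : y = algebraMap F E (x / 2) := by
            rw [map_div₀, map_ofNat, eq_div_iff h2E]
            exact h
          rw [h3, hQ, alg_pow, ← map_sub]
          congr 1
          field_simp
          ring
        · rw [← h]
          ring
    rw [e1, e2, card_singleton, card_singleton]
  · have hδ0 : δ ≠ 0 := by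
      rintro rfl
      apply hx
      apply hinj
      rw [map_zero, ← hδ]
      ring
    have hne : (algebraMap F E x + δ) / 2 ≠ (algebraMap F E x - δ) / 2 := by
      intro h
      rw [div_left_inj' h2E] at h
      have h3 : 2 * δ = 0 := by linear_combination h
      exact (mul_ne_zero h2E hδ0) h3
    by_cases hsq : δ ^ Q = δ
    · obtain ⟨d, hd⟩ := exists_of_fixed h2 hE hsq
      have hd2 : d ^ 2 = x ^ 2 - 4 := by
        apply hinj
        rw [map_pow, hd, hδ]
      have hd0 : d ≠ 0 := by
        rintro rfl
        rw [map_zero] at hd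
        exact hδ0 hd.symm
      have e1 : univ.filter (fun t : F => t ≠ 0 ∧ t + t⁻¹ = x) = {(x + d) / 2, (x - d) / 2} := by
        ext t
        rw [mem_filter, mem_insert, mem_singleton, hmem1, ← hd2, sq_eq_sq_iff_eq_or_eq_neg,
          eq_div_iff h2F, eq_div_iff h2F]
        constructor
        · rintro ⟨-, h | h⟩
          · left; linear_combination h
          · right; linear_combination h
        · rintro (h | h)
          · exact ⟨mem_univ _, Or.inl (by linear_combination h)⟩
          · exact ⟨mem_univ _, Or.inr (by linear_combination h)⟩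
      have e2 : univ.filter (fun y : E => Algebra.norm F y = 1 ∧ Algebra.trace F E y = x) = ∅ := by
        rw [filter_eq_empty_iff]
        intro y _ hy
        rw [hmem, sq_eq_sq_iff_eq_or_eq_neg] at hy
        obtain ⟨h3, h4⟩ := hy
        have h5 : y ^ Q = y := by
          have h6 : ∃ z : F, y = algebraMap F E z := by
            rcases h4 with h4 | h4
            · refine ⟨(x + d) / 2, ?_⟩
              rw [map_div₀, map_add, hd, map_ofNat, eq_div_iff h2E]
              linear_combination h4
            · refine ⟨(x - d) / 2, ?_⟩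
              rw [map_div₀, map_sub, hd, map_ofNat, eq_div_iff h2E]
              linear_combination h4
          obtain ⟨z, rfl⟩ := h6
          rw [hQ]
          exact alg_pow z
        rw [h5] at h3
        have h7 : 2 * y - algebraMap F E x = 0 := by linear_combination h3
        rw [h7] at h4
        rcases h4 with h4 | h4
        · exact hδ0 h4.symm
        · exact hδ0 (by linear_combination h4)
      rw [e1, e2, card_empty, add_zero, card_pair]
      intro h
      rw [div_left_inj' h2F] at h
      have h3 : 2 * d = 0 := by linear_combination h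
      exact (mul_ne_zero h2F hd0) h3
    · have hneg : δ ^ Q = -δ := by
        have h3 : (δ ^ Q) ^ 2 = δ ^ 2 := by
          rw [← pow_mul, mul_comm, pow_mul, hδ, hQ, alg_pow]
        rcases sq_eq_sq_iff_eq_or_eq_neg.1 h3 with h4 | h4
        · exact absurd h4 hsq
        · exact h4
      have e1 : univ.filter (fun t : F => t ≠ 0 ∧ t + t⁻¹ = x) = ∅ := by
        rw [filter_eq_empty_iff]
        intro t _ ht
        rw [hmem1] at ht
        apply hsq
        have h3 : (algebraMap F E (2 * t - x)) ^ 2 = δ ^ 2 := by
          rw [← map_pow, ht, hδ]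
        rcases sq_eq_sq_iff_eq_or_eq_neg.1 h3 with h4 | h4
        · rw [← h4, hQ]
          exact alg_pow _
        · have h5 : δ = algebraMap F E (-(2 * t - x)) := by
            rw [map_neg, h4, neg_neg]
          rw [h5, hQ]
          exact alg_pow _
      have hfrob : ∀ a b : E, (a + b) ^ Q = a ^ Q + b ^ Q := by
        intro a b
        obtain ⟨p, hp, n, hpp, hcard⟩ := FiniteField.card' F
        haveI : Fact p.Prime := ⟨hpp⟩
        haveI : CharP E p := charP_of_injective_algebraMap hinj p
        rw [hQ, hcard]
        exact add_pow_char_pow a b p n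
      have hhalf : ∀ a : E, (a / 2) ^ Q = a ^ Q / 2 := by
        intro a
        rw [div_pow]
        congr 1
        have : (2 : E) = algebraMap F E 2 := by rw [map_ofNat]
        rw [this, hQ, alg_pow]
      have hmem2 : ∀ y : E, y ∈ ({(algebraMap F E x + δ) / 2, (algebraMap F E x - δ) / 2} : Finset E) ↔
          (2 * y - algebraMap F E x) ^ 2 = δ ^ 2 := by
        intro y
        rw [mem_insert, mem_singleton, sq_eq_sq_iff_eq_or_eq_neg, eq_div_iff h2E, eq_div_iff h2E]
        constructor
        · rintro (h | h)
          · left; linear_combination h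
          · right; linear_combination h
        · rintro (h | h)
          · left; linear_combination h
          · right; linear_combination h
      have e2 : univ.filter (fun y : E => Algebra.norm F y = 1 ∧ Algebra.trace F E y = x) =
          {(algebraMap F E x + δ) / 2, (algebraMap F E x - δ) / 2} := by
        ext y
        rw [mem_filter, hmem, hmem2]
        constructor
        · rintro ⟨-, -, h⟩
          exact h
        · intro h
          refine ⟨mem_univ _, ?_, h⟩
          rw [← hmem2, mem_insert, mem_singleton] at h
          rcases h with rfl | rfl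
          · rw [hhalf, hfrob, hneg, hQ, alg_pow]
            field_simp
            ring
          · rw [sub_eq_add_neg, hhalf, hfrob, Odd.neg_pow, hneg, hQ, alg_pow]
            · field_simp
              ring
            · have := FiniteField.odd_card_of_char_ne_two h2
              rw [Nat.odd_iff]
              exact this
      rw [e1, e2, card_empty, zero_add, card_pair hne]

theorem two_sum {K : Type} [Field K] (h2 : ringChar F ≠ 2) (hE : Module.finrank F E = 2)
    (h : F → K) :
    2 * ∑ x, h x = ∑ t ∈ univ.filter (fun t : F => t ≠ 0), h (t + t⁻¹) +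
      ∑ y ∈ univ.filter (fun y : E => Algebra.norm F y = 1), h (Algebra.trace F E y) := by
  have e1 : ∑ t ∈ univ.filter (fun t : F => t ≠ 0), h (t + t⁻¹) =
      ∑ x : F, ((univ.filter (fun t : F => t ≠ 0 ∧ t + t⁻¹ = x)).card : K) * h x := by
    rw [← sum_fiberwise_of_maps_to (t := univ) (g := fun t : F => t + t⁻¹) (fun _ _ => mem_univ _)]
    refine sum_congr rfl fun x _ => ?_
    rw [filter_filter]
    rw [sum_congr rfl (g := fun _ => h x), sum_const, nsmul_eq_mul]
    intro t ht
    rw [mem_filter] at ht
    rw [ht.2.2]
  have e2 : ∑ y ∈ univ.filter (fun y : E => Algebra.norm F y = 1), h (Algebra.trace F E y) =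
      ∑ x : F, ((univ.filter (fun y : E => Algebra.norm F y = 1 ∧
        Algebra.trace F E y = x)).card : K) * h x := by
    rw [← sum_fiberwise_of_maps_to (t := univ) (g := fun y : E => Algebra.trace F E y)
      (fun _ _ => mem_univ _)]
    refine sum_congr rfl fun x _ => ?_
    rw [filter_filter]
    rw [sum_congr rfl (g := fun _ => h x), sum_const, nsmul_eq_mul]
    intro t ht
    rw [mem_filter] at ht
    rw [ht.2.2]
  rw [e1, e2, ← sum_add_distrib, mul_sum]
  refine sum_congr rfl fun x _ => ?_
  rw [← add_mul, ← Nat.cast_add, count h2 hE x]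
  push_cast
  ring

end

end Pool.Agent.R415.CH
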