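import Mathlib

/-!
# Sums over power maps in finite fields
-/

set_option autoImplicit false
set_option linter.unusedSectionVars false

namespace Pool.Agent.R415.CH

open Finset Polynomial

section

variable {E : Type} [Field E] [Fintype E] [DecidableEq E] {K : Type} [Field K]

theorem exists_gen : ∃ g : E, g ≠ 0 ∧ (∀ y : E, y ≠ 0 → ∃ n : ℕ, y = g ^ n) ∧
    IsPrimitiveRoot g (Fintype.card E - 1) := by
  obtain ⟨g, hg⟩ := IsCyclic.exists_generator (α := Eˣ)
  refine ⟨g, g.ne_zero, ?_, ?_⟩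
  · intro y hy
    obtain ⟨a, ha⟩ := (mem_powers_iff_mem_zpowers.2 (hg (Units.mk0 y hy)))
    refine ⟨a, ?_⟩
    have h3 := congrArg (fun u : Eˣ => (u : E)) ha
    simp only [Units.val_pow_eq_pow_val, Units.val_mk0] at h3
    exact h3.symm
  · have h1 : orderOf g = Fintype.card E - 1 := by
      rw [orderOf_eq_card_of_forall_mem_zpowers hg, Nat.card_eq_fintype_card, Fintype.card_units]
    rw [IsPrimitiveRoot.coe_units_iff, ← h1]
    exact IsPrimitiveRoot.orderOf g

theorem card_pos : 0 < Fintype.card E - 1 := by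
  have := Fintype.one_lt_card (α := E)
  omega

theorem card_roots {n : ℕ} (hn0 : 0 < n) (hn : n ∣ Fintype.card E - 1) {s : E} (hs : s ≠ 0) :
    (univ.filter (fun t : E => t ^ n = s)).card = if ∃ α : E, α ^ n = s then n else 0 := by
  obtain ⟨g, hg0, -, hgp⟩ := exists_gen (E := E)
  obtain ⟨m, hm⟩ := hn
  have hz : IsPrimitiveRoot (g ^ m) n := hgp.pow card_pos (by rw [hm, mul_comm])
  have h1 := hz.card_nthRoots s
  have h2 := hz.nthRoots_nodup (a := s) hs
  have e1 : univ.filter (fun t : E => t ^ n = s) = (nthRoots n s).toFinset := by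
    ext t
    rw [mem_filter, Multiset.mem_toFinset, mem_nthRoots hn0]
    simp
  rw [e1, Multiset.toFinset_card_of_nodup h2, h1]
  congr

theorem pow_applyK (χ : MulChar E K) (n : ℕ) {a : E} (ha : a ≠ 0) : (χ ^ n) a = χ a ^ n :=
  MulChar.pow_apply_coe χ n (Units.mk0 a ha)

theorem key_prim (ξ : MulChar E K) {g : E} (hg0 : g ≠ 0)
    (hg : ∀ y : E, y ≠ 0 → ∃ n : ℕ, y = g ^ n) {N : ℕ} (hξ : orderOf ξ = N) :
    IsPrimitiveRoot (ξ g) N := by
  have h3 : ∀ m : ℕ, ξ g ^ m = 1 ↔ ξ ^ m = 1 := by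
    intro m
    constructor
    · intro h4
      ext u
      obtain ⟨a, ha⟩ := hg u u.ne_zero
      rw [ha, map_pow, pow_applyK ξ m hg0, h4, one_pow, ← ha, MulChar.one_apply_coe]
    · intro h4
      rw [← pow_applyK ξ m hg0, h4]
      exact MulChar.one_apply_coe (Units.mk0 g hg0)
  refine ⟨?_, ?_⟩
  · rw [h3, ← hξ, pow_orderOf_eq_one]
  · intro m hm
    rw [h3] at hm
    rw [← hξ]
    exact orderOf_dvd_of_pow_eq_one hm

theorem sum_pow_eq {n : ℕ} (hn0 : 0 < n) (hn : n ∣ Fintype.card E - 1) (χ : MulChar E K)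
    (hχ : orderOf χ = n) (G : E → K) :
    ∑ t ∈ univ.filter (fun t : E => t ≠ 0), G (t ^ n) =
      ∑ j ∈ range n, ∑ s ∈ univ.filter (fun s : E => s ≠ 0), G s * (χ ^ j) s := by
  obtain ⟨g, hg0, hg, hgp⟩ := exists_gen (E := E)
  have hp := key_prim χ hg0 hg hχ
  have e1 : ∑ t ∈ univ.filter (fun t : E => t ≠ 0), G (t ^ n) =
      ∑ s ∈ univ.filter (fun s : E => s ≠ 0),
        ((univ.filter (fun t : E => t ^ n = s)).card : K) * G s := by
    rw [← sum_fiberwise_of_maps_to (t := univ.filter (fun s : E => s ≠ 0))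
      (g := fun t : E => t ^ n) (by
        intro t ht
        rw [mem_filter] at ht ⊢
        exact ⟨mem_univ _, pow_ne_zero n ht.2⟩)]
    refine sum_congr rfl fun s hs => ?_
    rw [mem_filter] at hs
    have e3 : (univ.filter (fun t : E => t ≠ 0)).filter (fun t => t ^ n = s) =
        univ.filter (fun t : E => t ^ n = s) := by
      ext t
      simp only [mem_filter, mem_univ, true_and]
      constructor
      · exact fun h => h.2
      · intro h
        refine ⟨?_, h⟩
        rintro rfl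
        rw [zero_pow hn0.ne'] at h
        exact hs.2 h.symm
    rw [e3, sum_congr rfl (g := fun _ => G s), sum_const, nsmul_eq_mul]
    intro t ht
    rw [mem_filter] at ht
    rw [ht.2]
  rw [e1, sum_comm]
  refine sum_congr rfl fun s hs => ?_
  rw [mem_filter] at hs
  rw [← mul_sum, mul_comm (G s)]
  congr 1
  rw [card_roots hn0 hn hs.2, sum_congr rfl fun j _ => pow_applyK χ j hs.2]
  obtain ⟨k, hk⟩ := hg s hs.2
  by_cases h1 : χ s = 1
  · have h2 : n ∣ k := by
      apply hp.dvd_of_pow_eq_one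
      rw [← map_pow, ← hk, h1]
    obtain ⟨j, hj⟩ := h2
    rw [if_pos ⟨g ^ j, by rw [hk, hj, ← pow_mul, mul_comm]⟩, h1]
    simp
  · rw [if_neg]
    · have h2 : χ s ^ n = 1 := by
        rw [← pow_applyK χ n hs.2, ← hχ, pow_orderOf_eq_one]
        exact MulChar.one_apply_coe (Units.mk0 s hs.2)
      have h3 := mul_neg_geom_sum (χ s) n
      rw [h2, sub_self] at h3
      rcases mul_eq_zero.1 h3 with h4 | h4
      · exact absurd (sub_eq_zero.1 h4).symm h1
      · rw [h4]
        simp
    · rintro ⟨α, hα⟩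
      apply h1
      have hα0 : α ≠ 0 := by
        rintro rfl
        rw [zero_pow hn0.ne'] at hα
        exact hs.2 hα.symm
      rw [← hα, map_pow, ← pow_applyK χ n hα0, ← hχ, pow_orderOf_eq_one]
      exact MulChar.one_apply_coe (Units.mk0 α hα0)

/-- the sum over the values of a power map -/
theorem sum_pow_fib {n m : ℕ} (hn0 : 0 < n) (hnm : Fintype.card E - 1 = n * m) (G : E → K) :
    ∑ t ∈ univ.filter (fun t : E => t ≠ 0), G (t ^ n) =
      n * ∑ y ∈ univ.filter (fun y : E => y ^ m = 1), G y := by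
  obtain ⟨g, hg0, hg, hgp⟩ := exists_gen (E := E)
  have hQ := card_pos (E := E)
  have hm0 : 0 < m := by
    rcases Nat.eq_zero_or_pos m with h | h
    · rw [h, mul_zero] at hnm
      omega
    · exact h
  have hfer : ∀ t : E, t ≠ 0 → t ^ (n * m) = 1 := by
    intro t ht
    rw [← hnm]
    exact FiniteField.pow_card_sub_one_eq_one t ht
  rw [← sum_fiberwise_of_maps_to (t := univ.filter (fun y : E => y ^ m = 1))
      (g := fun t : E => t ^ n) (by
        intro t ht
        rw [mem_filter] at ht ⊢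
        refine ⟨mem_univ _, ?_⟩
        rw [← pow_mul]
        exact hfer t ht.2), mul_sum]
  refine sum_congr rfl fun s hs => ?_
  rw [mem_filter] at hs
  have hs0 : s ≠ 0 := by
    rintro rfl
    rw [zero_pow hm0.ne'] at hs
    exact zero_ne_one hs.2
  have e3 : (univ.filter (fun t : E => t ≠ 0)).filter (fun t => t ^ n = s) =
      univ.filter (fun t : E => t ^ n = s) := by
    ext t
    simp only [mem_filter, mem_univ, true_and]
    constructor
    · exact fun h => h.2
    · intro h
      refine ⟨?_, h⟩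
      rintro rfl
      rw [zero_pow hn0.ne'] at h
      exact hs0 h.symm
  rw [e3, sum_congr rfl (g := fun _ => G s), sum_const, nsmul_eq_mul,
    card_roots hn0 ⟨m, hnm⟩ hs0, if_pos]
  · obtain ⟨k, hk⟩ := hg s hs0
    have h1 : n * m ∣ k * m := by
      rw [← hnm]
      apply hgp.dvd_of_pow_eq_one
      rw [pow_mul, ← hk]
      exact hs.2
    obtain ⟨j, hj⟩ := Nat.dvd_of_mul_dvd_mul_right hm0 h1
    exact ⟨g ^ j, by rw [hk, hj, ← pow_mul, mul_comm]⟩
  · intro t ht
    rw [mem_filter] at ht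
    rw [ht.2]

/-- a power map of coprime exponent permutes -/
theorem sum_pow_coprime {n k : ℕ} (hn : 0 < n) (hc : Nat.Coprime k n) (s : Finset E)
    (h1 : ∀ y ∈ s, y ^ n = 1) (h2 : ∀ y ∈ s, y ^ k ∈ s) (G : E → K) :
    ∑ y ∈ s, G (y ^ k) = ∑ y ∈ s, G y := by
  obtain ⟨m, hm⟩ : ∃ m, k * m ≡ 1 [MOD n] := by
    have := Nat.exists_mul_mod_eq_one_of_coprime hc
    rcases Nat.lt_or_ge 1 n with h | h
    · obtain ⟨m, -, hm⟩ := this h
      exact ⟨m, by rw [Nat.ModEq, hm, Nat.mod_eq_of_lt h]⟩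
    · have : n = 1 := by omega
      subst this
      exact ⟨0, Nat.modEq_one⟩
  have hinv : ∀ y ∈ s, (y ^ k) ^ m = y := by
    intro y hy
    rw [← pow_mul]
    have h3 : y ^ (k * m) = y ^ 1 := by
      have h4 : ∀ a b : ℕ, a ≡ b [MOD n] → y ^ a = y ^ b := by
        intro a b hab
        rw [← Nat.div_add_mod a n, ← Nat.div_add_mod b n, pow_add, pow_add, pow_mul, pow_mul,
          h1 y hy, one_pow, one_pow, hab]
      exact h4 _ _ hm
    rw [h3, pow_one]
  have hinj : Set.InjOn (fun y : E => y ^ k) s := by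
    intro a ha b hb hab
    have h3 := congrArg (fun z : E => z ^ m) hab
    simp only [] at h3
    rwa [hinv a ha, hinv b hb] at h3
  have himg : s.image (fun y => y ^ k) = s := by
    apply eq_of_subset_of_card_le
    · intro y hy
      rw [mem_image] at hy
      obtain ⟨z, hz, rfl⟩ := hy
      exact h2 z hz
    · rw [card_image_of_injOn hinj]
  conv_rhs => rw [← himg]
  rw [sum_image hinj]

end

end Pool.Agent.R415.CH
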