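import Mathlib
import Pool.Agent.R415.CH.Count
import Pool.Agent.R415.CH.Fermat

/-!
# The character sum of the Dickson polynomial
-/

set_option autoImplicit false
set_option linter.unusedSectionVars false

namespace Pool.Agent.R415.CH

open Finset Polynomial

section

variable {F : Type} [Field F] [Fintype F] [DecidableEq F] {K : Type} [Field K]

/-- the quadratic character with values in the field `K` -/
noncomputable def qc (F : Type) [Field F] [Fintype F] [DecidableEq F] (K : Type) [Field K] :
    MulChar F K := (quadraticChar F).ringHomComp (Int.castRingHom K)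

theorem qc_apply (a : F) : qc F K a = ((quadraticChar F a : ℤ) : K) := rfl

theorem qc_sq {a : F} (ha : a ≠ 0) : qc F K a ^ 2 = 1 := by
  rw [qc_apply, ← Int.cast_pow, quadraticChar_sq_one ha, Int.cast_one]

theorem qc_ne_one [CharZero K] (h2 : ringChar F ≠ 2) : qc F K ≠ 1 := by
  intro h
  apply quadraticChar_ne_one h2
  ext u
  have h1 : qc F K u = (1 : MulChar F K) u := by rw [h]
  rw [qc_apply, MulChar.one_apply_coe] at h1
  rw [MulChar.one_apply_coe]
  exact_mod_cast h1

theorem qc_quad : (qc F K).IsQuadratic := by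
  intro a
  rcases quadraticChar_isQuadratic F a with h | h | h
  · left; rw [qc_apply, h]; simp
  · right; left; rw [qc_apply, h]; simp
  · right; right; rw [qc_apply, h]; simp

theorem qc_unique [CharZero K] (h2 : ringChar F ≠ 2) (T : MulChar F K) (h1 : T ≠ 1)
    (hT : T ^ 2 = 1) : T = qc F K := by
  have hsq : ∀ u : F, u ≠ 0 → T u ^ 2 = 1 := by
    intro u hu
    rw [← pow_applyK T 2 hu, hT]
    exact MulChar.one_apply_coe (Units.mk0 u hu)
  have hsqr : ∀ u : F, u ≠ 0 → IsSquare u → T u = 1 := by
    rintro u hu ⟨v, rfl⟩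
    have hv : v ≠ 0 := left_ne_zero_of_mul hu
    rw [map_mul, ← sq, hsq v hv]
  obtain ⟨v, hv⟩ : ∃ v : Fˣ, T v ≠ 1 := by
    by_contra h0
    push Not at h0
    apply h1
    ext u
    rw [h0 u, MulChar.one_apply_coe]
  have hvn : ¬ IsSquare (v : F) := fun h => hv (hsqr v v.ne_zero h)
  have hTv : T v = -1 := by
    have h5 : (T v - 1) * (T v + 1) = 0 := by linear_combination hsq v v.ne_zero
    rcases mul_eq_zero.1 h5 with h | h
    · exact absurd (sub_eq_zero.1 h) hv
    · linear_combination h
  ext u
  rw [qc_apply]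
  by_cases hu : IsSquare (u : F)
  · rw [hsqr u u.ne_zero hu, (quadraticChar_one_iff_isSquare u.ne_zero).2 hu]
    simp
  · rw [quadraticChar_neg_one_iff_not_isSquare.2 hu]
    have h3 : IsSquare ((u : F) * v) := by
      rw [← quadraticChar_one_iff_isSquare (mul_ne_zero u.ne_zero v.ne_zero), map_mul,
        quadraticChar_neg_one_iff_not_isSquare.2 hu, quadraticChar_neg_one_iff_not_isSquare.2 hvn]
      norm_num
    have h4 := hsqr _ (mul_ne_zero u.ne_zero v.ne_zero) h3
    rw [map_mul, hTv] at h4
    push_cast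
    linear_combination -h4

/-- `qc (s + 1 / s)` -/
noncomputable def Gs (K : Type) [Field K] (s : F) : K := qc F K (s + s⁻¹)

variable {E : Type} [Field E] [Fintype E] [DecidableEq E] [Algebra F E]

/-- `qc (tr y)` -/
noncomputable def Gn (F : Type) [Field F] [Fintype F] [DecidableEq F] {E : Type} [Field E]
    [Algebra F E] (K : Type) [Field K] (y : E) : K := qc F K (Algebra.trace F E y)

theorem norm_filter (hE : Module.finrank F E = 2) :
    univ.filter (fun y : E => Algebra.norm F y = 1) =
      univ.filter (fun y : E => y ^ (Fintype.card F + 1) = 1) := by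
  ext y
  simp only [mem_filter, mem_univ, true_and]
  rw [← nm_eq hE, ← map_one (algebraMap F E)]
  exact ⟨fun h => by rw [h], fun h => (algebraMap F E).injective h⟩

theorem red [CharZero K] (h2 : ringChar F ≠ 2) (hE : Module.finrank F E = 2) (ℓ : ℕ) :
    2 * ∑ x : F, qc F K ((dickson 1 (1 : F) ℓ).eval x) =
      (∑ t ∈ univ.filter (fun t : F => t ≠ 0), Gs K (t ^ ℓ) -
        ∑ t ∈ univ.filter (fun t : F => t ≠ 0), Gs K t) +
      (∑ y ∈ univ.filter (fun y : E => y ^ (Fintype.card F + 1) = 1), Gn F K (y ^ ℓ) -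
        ∑ y ∈ univ.filter (fun y : E => y ^ (Fintype.card F + 1) = 1), Gn F K y) := by
  have h0 : ∑ x : F, qc F K x = 0 := MulChar.sum_eq_zero_of_ne_one (qc_ne_one h2)
  have h3 := two_sum (E := E) h2 hE (fun x : F => qc F K x)
  rw [h0, mul_zero, norm_filter hE] at h3
  have h4 := two_sum (E := E) h2 hE (fun x : F => qc F K ((dickson 1 (1 : F) ℓ).eval x))
  rw [norm_filter hE] at h4
  have h5 : ∑ t ∈ univ.filter (fun t : F => t ≠ 0), qc F K ((dickson 1 (1 : F) ℓ).eval (t + t⁻¹)) =
      ∑ t ∈ univ.filter (fun t : F => t ≠ 0), Gs K (t ^ ℓ) := by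
    refine sum_congr rfl fun t ht => ?_
    rw [mem_filter] at ht
    rw [dickson_one_one_eval_add_inv t t⁻¹ (mul_inv_cancel₀ ht.2), Gs, inv_pow]
  have h6 : ∑ y ∈ univ.filter (fun y : E => y ^ (Fintype.card F + 1) = 1),
        qc F K ((dickson 1 (1 : F) ℓ).eval (Algebra.trace F E y)) =
      ∑ y ∈ univ.filter (fun y : E => y ^ (Fintype.card F + 1) = 1), Gn F K (y ^ ℓ) := by
    refine sum_congr rfl fun y hy => ?_
    rw [mem_filter] at hy
    have e : (dickson 1 (1 : F) ℓ).eval (Algebra.trace F E y) = Algebra.trace F E (y ^ ℓ) := by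
      apply (algebraMap F E).injective
      rw [tr_eq hE, ← Polynomial.eval_map_apply, map_dickson, map_one, tr_eq hE]
      have e2 : y * y ^ Fintype.card F = 1 := by
        rw [← pow_succ']
        exact hy.2
      rw [dickson_one_one_eval_add_inv y _ e2]
      ring
    rw [e, Gn]
  rw [h4, h5, h6]
  unfold Gs Gn at *
  linear_combination -h3

end

end Pool.Agent.R415.CH
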