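import Mathlib
import Pool.Agent.R415.CH.Red

/-!
# Expansion of the character sums into Jacobi and Eisenstein sums
-/

set_option autoImplicit false
set_option linter.unusedSectionVars false

namespace Pool.Agent.R415.CH

open Finset Polynomial

section

variable {F : Type} [Field F] [Fintype F] [DecidableEq F] {K : Type} [Field K]

theorem orders {T : MulChar F K} {ℓ : ℕ} (hℓ : Odd ℓ) (hT : orderOf T = 4 * ℓ) :
    orderOf (T ^ 4) = ℓ ∧ T ^ (2 * ℓ) ≠ 1 ∧ (T ^ (2 * ℓ)) ^ 2 = 1 ∧ orderOf (T ^ (2 * ℓ)) = 2 := by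
  have hl0 : 0 < ℓ := hℓ.pos
  have h1 : orderOf (T ^ (2 * ℓ)) = 2 := by
    rw [orderOf_pow_of_dvd (by omega) (by rw [hT]; exact ⟨2, by ring⟩), hT]
    rw [show 4 * ℓ = 2 * (2 * ℓ) by ring, Nat.mul_div_cancel _ (by omega)]
  refine ⟨?_, ?_, ?_, h1⟩
  · rw [orderOf_pow_of_dvd (by omega) (by rw [hT]; exact ⟨ℓ, rfl⟩), hT,
      Nat.mul_div_cancel_left _ (by omega)]
  · intro h
    rw [h, orderOf_one] at h1
    omega
  · have := pow_orderOf_eq_one (T ^ (2 * ℓ))
    rwa [h1] at this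

theorem T_half [CharZero K] (h2 : ringChar F ≠ 2) {T : MulChar F K} {ℓ : ℕ} (hℓ : Odd ℓ)
    (hT : orderOf T = 4 * ℓ) : T ^ (2 * ℓ) = qc F K :=
  qc_unique h2 _ (orders hℓ hT).2.1 (orders hℓ hT).2.2.1

/-- the Jacobi sum `∑ qc (1 + u) T u` -/
noncomputable def PP (T : MulChar F K) : K := ∑ u : F, qc F K (1 + u) * T u

/-- the square substitution -/
theorem sum_sq [CharZero K] (h2 : ringChar F ≠ 2) (H : F → K) (T : MulChar F K) :
    ∑ s ∈ univ.filter (fun s : F => s ≠ 0), H (s ^ 2) * T (s ^ 2) =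
      ∑ u : F, H u * T u + ∑ u : F, H u * (T * qc F K) u := by
  have hdvd : 2 ∣ Fintype.card F - 1 := by
    have := FiniteField.odd_card_of_char_ne_two h2
    omega
  have ho : orderOf (qc F K) = 2 := by
    apply orderOf_eq_prime
    · ext u
      rw [pow_applyK _ _ u.ne_zero, qc_sq u.ne_zero, MulChar.one_apply_coe]
    · exact qc_ne_one h2
  have h3 := sum_pow_eq (by norm_num : 0 < 2) hdvd (qc F K) ho (fun u => H u * T u)
  rw [h3, sum_range_succ, sum_range_one, pow_zero, pow_one]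
  congr 1
  · rw [sum_filter]
    refine sum_congr rfl fun u _ => ?_
    split_ifs with h
    · rw [show (1 : MulChar F K) u = 1 from MulChar.one_apply_coe (Units.mk0 u h), mul_one]
    · push Not at h
      rw [h, MulChar.map_zero, mul_zero]
  · rw [sum_filter]
    refine sum_congr rfl fun u _ => ?_
    split_ifs with h
    · rw [MulChar.mul_apply, mul_assoc]
    · push Not at h
      rw [h, MulChar.map_zero, mul_zero]

theorem exp_one_aux [CharZero K] (h2 : ringChar F ≠ 2) {T : MulChar F K} {ℓ : ℕ} (hℓ : Odd ℓ)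
    (hT : orderOf T = 4 * ℓ) (j : ℕ) :
    ∑ s ∈ univ.filter (fun s : F => s ≠ 0), Gs K s * ((T ^ 4) ^ j) s =
      PP (T ^ (ℓ + 2 * j)) + PP (T ^ (3 * ℓ + 2 * j)) := by
  have hq := T_half h2 hℓ hT
  have h3 := sum_sq h2 (fun u => qc F K (1 + u)) (T ^ (ℓ + 2 * j))
  have h4 : T ^ (ℓ + 2 * j) * qc F K = T ^ (3 * ℓ + 2 * j) := by
    rw [← hq, ← pow_add]
    congr 1
    ring
  rw [h4] at h3
  unfold PP
  rw [← h3]
  refine sum_congr rfl fun s hs => ?_
  rw [mem_filter] at hs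
  have hs0 := hs.2
  unfold Gs
  have h5 : s * (s + s⁻¹) = 1 + s ^ 2 := by
    field_simp
    ring
  rw [← h5, map_mul, pow_applyK T _ (pow_ne_zero 2 hs0), map_pow, ← pow_mul, ← pow_mul,
    pow_applyK T _ hs0]
  have h6 : T s ^ (2 * (ℓ + 2 * j)) = qc F K s * T s ^ (4 * j) := by
    rw [← hq, pow_applyK T _ hs0, ← pow_add]
    congr 1
    ring
  rw [h6]
  have h7 := qc_sq (K := K) hs0
  linear_combination (- qc F K (s + s⁻¹) * T s ^ (4 * j)) * h7

theorem exp_one [CharZero K] (h2 : ringChar F ≠ 2) {T : MulChar F K} {ℓ : ℕ} (hℓ : Odd ℓ)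
    (hT : orderOf T = 4 * ℓ) :
    ∑ t ∈ univ.filter (fun t : F => t ≠ 0), Gs K (t ^ ℓ) -
        ∑ t ∈ univ.filter (fun t : F => t ≠ 0), Gs K t =
      ∑ j ∈ range (ℓ - 1), (PP (T ^ (ℓ + 2 * (j + 1))) + PP (T ^ (3 * ℓ + 2 * (j + 1)))) := by
  have hdvd : ℓ ∣ Fintype.card F - 1 := by
    have h3 := MulChar.orderOf_dvd_card_sub_one F T
    rw [hT] at h3
    exact (dvd_mul_left ℓ 4).trans h3
  obtain ⟨m, rfl⟩ : ∃ m, ℓ = m + 1 := ⟨ℓ - 1, by have := hℓ.pos; omega⟩
  rw [sum_pow_eq hℓ.pos hdvd (T ^ 4) (orders hℓ hT).1, sum_range_succ', pow_zero]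
  have e0 : ∑ s ∈ univ.filter (fun s : F => s ≠ 0), Gs K s * (1 : MulChar F K) s =
      ∑ t ∈ univ.filter (fun t : F => t ≠ 0), Gs K t := by
    refine sum_congr rfl fun s hs => ?_
    rw [mem_filter] at hs
    rw [show (1 : MulChar F K) s = 1 from MulChar.one_apply_coe (Units.mk0 s hs.2), mul_one]
  rw [e0, add_sub_cancel_right, Nat.add_sub_cancel]
  refine sum_congr rfl fun j _ => ?_
  exact exp_one_aux h2 hℓ hT (j + 1)

end

section

variable {F : Type} [Field F] [Fintype F] [DecidableEq F] {E : Type} [Field E] [Fintype E]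
  [DecidableEq E] [Algebra F E] {K : Type} [Field K]

/-- the Eisenstein sum `∑ qc (tr w) T w` -/
noncomputable def RR (F : Type) [Field F] [Fintype F] [DecidableEq F] [Algebra F E]
    (T : MulChar E K) : K := ∑ w : E, qc F K (Algebra.trace F E w) * T w

theorem norm_surj (hE : Module.finrank F E = 2) (x : F) (hx : x ≠ 0) :
    ∃ z : E, z ≠ 0 ∧ Algebra.norm F z = x := by
  obtain ⟨g, hg0, hg, hgp⟩ := exists_gen (E := E)
  have hx' : algebraMap F E x ≠ 0 := by rwa [Ne, map_eq_zero]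
  obtain ⟨k, hk⟩ := hg _ hx'
  have hQ : 1 < Fintype.card F := Fintype.one_lt_card
  have h1 : (algebraMap F E x) ^ (Fintype.card F - 1) = 1 := by
    rw [← map_pow, FiniteField.pow_card_sub_one_eq_one x hx, map_one]
  rw [hk, ← pow_mul] at h1
  have h2 := hgp.dvd_of_pow_eq_one _ h1
  have h3 : Fintype.card E - 1 = (Fintype.card F + 1) * (Fintype.card F - 1) := by
    rw [card_E hE]
    have := Nat.sq_sub_sq (Fintype.card F) 1
    rwa [one_pow] at this
  rw [h3] at h2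
  obtain ⟨j, hj⟩ := Nat.dvd_of_mul_dvd_mul_right (by omega : 0 < Fintype.card F - 1) h2
  refine ⟨g ^ j, pow_ne_zero j hg0, ?_⟩
  apply (algebraMap F E).injective
  rw [nm_eq hE, hk, hj, ← pow_mul, mul_comm]

theorem qc_norm [CharZero K] (h2 : ringChar F ≠ 2) (h2E : ringChar E ≠ 2)
    (hE : Module.finrank F E = 2) (z : E) (hz : z ≠ 0) :
    qc F K (Algebra.norm F z) = qc E K z := by
  obtain ⟨g, hg0, hg, hgp⟩ := exists_gen (E := E)
  have hpm : ∀ {X : Type} [Field X] [Fintype X] [DecidableEq X] (a : X), a ≠ 0 → qc X K a ≠ 1 →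
      qc X K a = -1 := by
    intro X _ _ _ a ha h
    have h5 : (qc X K a - 1) * (qc X K a + 1) = 0 := by linear_combination qc_sq (K := K) ha
    rcases mul_eq_zero.1 h5 with h | h
    · exact absurd (sub_eq_zero.1 h) ‹_›
    · linear_combination h
  have hNg0 : Algebra.norm F g ≠ 0 := by
    rw [Ne, Algebra.norm_eq_zero_iff]
    exact hg0
  have h1 : qc F K (Algebra.norm F g) = -1 := by
    apply hpm _ hNg0
    intro h
    apply qc_ne_one (K := K) h2
    ext u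
    obtain ⟨z, hz0, hz⟩ := norm_surj hE (u : F) u.ne_zero
    obtain ⟨k, hk⟩ := hg z hz0
    rw [← hz, hk, map_pow, map_pow, h, one_pow, ← map_pow, ← hk, hz, MulChar.one_apply_coe]
  have h3 : qc E K g = -1 := by
    apply hpm _ hg0
    intro h
    apply qc_ne_one (K := K) h2E
    ext u
    obtain ⟨k, hk⟩ := hg u u.ne_zero
    rw [hk, map_pow, h, one_pow, ← hk, MulChar.one_apply_coe]
  obtain ⟨k, hk⟩ := hg z hz
  rw [hk, map_pow, map_pow, map_pow, h1, h3]

theorem exp_two_aux [CharZero K] (h2 : ringChar F ≠ 2) (h2E : ringChar E ≠ 2)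
    (hE : Module.finrank F E = 2) {T : MulChar E K} {ℓ : ℕ} (hℓ : Odd ℓ)
    (hT : orderOf T = 4 * ℓ) (j : ℕ) :
    ∑ z ∈ univ.filter (fun z : E => z ≠ 0),
        (qc E K z * qc F K (Algebra.trace F E (z ^ 2))) * ((T ^ 4) ^ j) z =
      RR F (T ^ (ℓ + 2 * j)) + RR F (T ^ (3 * ℓ + 2 * j)) := by
  have hq := T_half h2E hℓ hT
  have h3 := sum_sq h2E (fun u => qc F K (Algebra.trace F E u)) (T ^ (ℓ + 2 * j))
  have h4 : T ^ (ℓ + 2 * j) * qc E K = T ^ (3 * ℓ + 2 * j) := by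
    rw [← hq, ← pow_add]
    congr 1
    ring
  rw [h4] at h3
  unfold RR
  rw [← h3]
  refine sum_congr rfl fun s hs => ?_
  rw [mem_filter] at hs
  have hs0 := hs.2
  rw [pow_applyK T _ (pow_ne_zero 2 hs0), map_pow T s 2, ← pow_mul, ← pow_mul, pow_applyK T _ hs0]
  have h6 : T s ^ (2 * (ℓ + 2 * j)) = qc E K s * T s ^ (4 * j) := by
    rw [← hq, pow_applyK T _ hs0, ← pow_add]
    congr 1
    ring
  rw [h6]
  ring

theorem Gn_pow [CharZero K] (h2 : ringChar F ≠ 2) (h2E : ringChar E ≠ 2)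
    (hE : Module.finrank F E = 2) {k : ℕ} (hk : Odd k) (z : E) (hz : z ≠ 0) :
    Gn F K ((z ^ (Fintype.card F - 1)) ^ k) =
      qc E K (z ^ k) * qc F K (Algebra.trace F E ((z ^ k) ^ 2)) := by
  set Q := Fintype.card F with hQ
  have hQ1 : 1 < Q := Fintype.one_lt_card
  have h3 : algebraMap F E (Algebra.norm F (z ^ k) * Algebra.trace F E ((z ^ (Q - 1)) ^ k)) =
      algebraMap F E (Algebra.trace F E ((z ^ k) ^ 2)) := by
    rw [map_mul, tr_eq hE, nm_eq hE, tr_eq hE, ← hQ]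
    have e1 : z ^ (Q ^ 2) = z := by
      rw [← card_E hE]
      exact FiniteField.pow_card z
    have e2 : z ^ (Q + 1) * z ^ (Q - 1) = z ^ (2 * Q) := by
      rw [← pow_add]
      congr 1
      omega
    have e3 : z ^ (Q + 1) * (z ^ (Q - 1)) ^ Q = z ^ 2 := by
      rw [← pow_mul, ← pow_add]
      have : Q + 1 + (Q - 1) * Q = Q ^ 2 + 1 := by
        obtain ⟨m, hm⟩ : ∃ m, Q = m + 1 := ⟨Q - 1, by omega⟩
        rw [hm, Nat.add_sub_cancel]
        ring
      rw [this, pow_succ, e1]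
      ring
    calc (z ^ k) ^ (Q + 1) * ((z ^ (Q - 1)) ^ k + ((z ^ (Q - 1)) ^ k) ^ Q)
        = (z ^ (Q + 1) * z ^ (Q - 1)) ^ k + (z ^ (Q + 1) * (z ^ (Q - 1)) ^ Q) ^ k := by ring
      _ = (z ^ k) ^ 2 + ((z ^ k) ^ 2) ^ Q := by
        rw [e2, e3]
        ring
  have h4 := (algebraMap F E).injective h3
  have hzk : z ^ k ≠ 0 := pow_ne_zero k hz
  have h5 := congrArg (qc F K) h4
  rw [map_mul, qc_norm h2 h2E hE _ hzk] at h5
  rw [← h5, Gn]
  have h6 := qc_sq (K := K) hzk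
  linear_combination (- qc F K (Algebra.trace F E ((z ^ (Q - 1)) ^ k))) * h6

theorem exp_two [CharZero K] (h2 : ringChar F ≠ 2) (h2E : ringChar E ≠ 2)
    (hE : Module.finrank F E = 2) {T : MulChar E K} {ℓ : ℕ} (hℓ : Odd ℓ)
    (hT : orderOf T = 4 * ℓ) :
    ((Fintype.card F - 1 : ℕ) : K) *
      (∑ y ∈ univ.filter (fun y : E => y ^ (Fintype.card F + 1) = 1), Gn F K (y ^ ℓ) -
        ∑ y ∈ univ.filter (fun y : E => y ^ (Fintype.card F + 1) = 1), Gn F K y) =
      ∑ j ∈ range (ℓ - 1), (RR F (T ^ (ℓ + 2 * (j + 1))) + RR F (T ^ (3 * ℓ + 2 * (j + 1)))) := by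
  have hdvd : ℓ ∣ Fintype.card E - 1 := by
    have h3 := MulChar.orderOf_dvd_card_sub_one E T
    rw [hT] at h3
    exact (dvd_mul_left ℓ 4).trans h3
  have hQ1 : 1 < Fintype.card F := Fintype.one_lt_card
  have h3 : Fintype.card E - 1 = (Fintype.card F - 1) * (Fintype.card F + 1) := by
    rw [card_E hE, mul_comm]
    have := Nat.sq_sub_sq (Fintype.card F) 1
    rwa [one_pow] at this
  have h4 := sum_pow_fib (K := K) (by omega : 0 < Fintype.card F - 1) h3 (fun y => Gn F K (y ^ ℓ))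
  have h5 := sum_pow_fib (K := K) (by omega : 0 < Fintype.card F - 1) h3 (fun y => Gn F K y)
  rw [mul_sub, ← h4, ← h5]
  set G' : E → K := fun z => qc E K z * qc F K (Algebra.trace F E (z ^ 2)) with hG'
  have e1 : ∑ t ∈ univ.filter (fun t : E => t ≠ 0), Gn F K ((t ^ (Fintype.card F - 1)) ^ ℓ) =
      ∑ t ∈ univ.filter (fun t : E => t ≠ 0), G' (t ^ ℓ) := by
    refine sum_congr rfl fun t ht => ?_
    rw [mem_filter] at ht
    exact Gn_pow h2 h2E hE hℓ t ht.2
  have e2 : ∑ t ∈ univ.filter (fun t : E => t ≠ 0), Gn F K (t ^ (Fintype.card F - 1)) =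
      ∑ t ∈ univ.filter (fun t : E => t ≠ 0), G' t := by
    refine sum_congr rfl fun t ht => ?_
    rw [mem_filter] at ht
    have := Gn_pow (K := K) h2 h2E hE odd_one t ht.2
    rwa [pow_one, pow_one] at this
  rw [e1, e2]
  obtain ⟨m, rfl⟩ : ∃ m, ℓ = m + 1 := ⟨ℓ - 1, by have := hℓ.pos; omega⟩
  rw [sum_pow_eq hℓ.pos hdvd (T ^ 4) (orders hℓ hT).1, sum_range_succ', pow_zero]
  have e0 : ∑ s ∈ univ.filter (fun s : E => s ≠ 0), G' s * (1 : MulChar E K) s =
      ∑ t ∈ univ.filter (fun t : E => t ≠ 0), G' t := by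
    refine sum_congr rfl fun s hs => ?_
    rw [mem_filter] at hs
    rw [show (1 : MulChar E K) s = 1 from MulChar.one_apply_coe (Units.mk0 s hs.2), mul_one]
  rw [e0, add_sub_cancel_right, Nat.add_sub_cancel]
  refine sum_congr rfl fun j _ => ?_
  exact exp_two_aux h2 h2E hE hℓ hT (j + 1)

end

end Pool.Agent.R415.CH
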