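import Mathlib
import Pool.Agent.R415.CH.Expand

/-!
# Absolute values of the Jacobi and Eisenstein sums, and the equality case
-/

set_option autoImplicit false
set_option linter.unusedSectionVars false

namespace Pool.Agent.R415.CH

open Finset Polynomial

section

variable {F : Type} [Field F] [Fintype F] [DecidableEq F]

theorem norm_gauss (χ : MulChar F ℂ) (hχ : χ ≠ 1) (ψ : AddChar F ℂ) (hψ : ψ.IsPrimitive) :
    ‖gaussSum χ ψ‖ ^ 2 = Fintype.card F := by
  have h1 := gaussSum_mul_gaussSum_eq_card hχ hψ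
  rw [← star_gaussSum_eq] at h1
  have h2 : gaussSum χ ψ * star (gaussSum χ ψ) = ((‖gaussSum χ ψ‖ ^ 2 : ℝ) : ℂ) := by
    rw [Complex.star_def, Complex.mul_conj, Complex.normSq_eq_norm_sq]
  rw [h2] at h1
  exact_mod_cast h1

theorem norm_val (χ : MulChar F ℂ) {a : F} (ha : a ≠ 0) : ‖χ a‖ = 1 := by
  have h1 : χ a ^ (Fintype.card F - 1) = 1 := by
    rw [← map_pow, FiniteField.pow_card_sub_one_eq_one a ha, map_one]
  have h2 := congrArg norm h1
  rw [norm_pow, norm_one] at h2
  exact (pow_eq_one_iff_of_nonneg (norm_nonneg _) card_pos.ne').1 h2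

theorem PP_eq {K : Type} [Field K] (T : MulChar F K) : PP T = T (-1) * jacobiSum T (qc F K) := by
  unfold PP jacobiSum
  rw [mul_sum, ← Equiv.sum_comp (Equiv.neg F)]
  refine sum_congr rfl fun x _ => ?_
  rw [Equiv.neg_apply, show -x = (-1) * x by ring, map_mul, show 1 + (-1) * x = 1 - x by ring]
  ring

theorem norm_PP (h2 : ringChar F ≠ 2) {T : MulChar F ℂ} {ℓ : ℕ} (hℓ : Odd ℓ)
    (hT : orderOf T = 4 * ℓ) {b : ℕ} (hb : Odd b) : ‖PP (T ^ b)‖ ^ 2 = Fintype.card F := by
  rw [PP_eq, norm_mul, norm_val _ (neg_ne_zero.2 one_ne_zero), one_mul]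
  have hne : ∀ c : ℕ, Odd c → T ^ c ≠ 1 := by
    intro c hc h
    have h1 := orderOf_dvd_of_pow_eq_one h
    rw [hT] at h1
    obtain ⟨k, hk⟩ := h1
    rw [Nat.odd_iff] at hc
    have : c = 2 * (2 * (ℓ * k)) := by rw [hk]; ring
    omega
  have h1 : T ^ b * qc F ℂ ≠ 1 := by
    rw [← T_half h2 hℓ hT, ← pow_add]
    apply hne
    rw [Nat.odd_iff] at hb ⊢
    omega
  have h3 := norm_gauss (T ^ b) (hne b hb) _ (AddChar.FiniteField.primitiveChar_to_Complex_isPrimitive F)
  have h4 := norm_gauss (qc F ℂ) (qc_ne_one h2) _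
    (AddChar.FiniteField.primitiveChar_to_Complex_isPrimitive F)
  have h5 := norm_gauss _ h1 _ (AddChar.FiniteField.primitiveChar_to_Complex_isPrimitive F)
  have h6 := jacobiSum_mul_nontrivial h1 (AddChar.FiniteField.primitiveChar_to_Complex F)
  have h7 := congrArg (fun z : ℂ => ‖z‖ ^ 2) h6
  simp only [norm_mul, mul_pow] at h7
  rw [h3, h4, h5] at h7
  have hc : (Fintype.card F : ℝ) ≠ 0 := by exact_mod_cast Fintype.card_ne_zero
  exact mul_left_cancel₀ hc h7

/-- the equality case of the triangle inequality -/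
theorem eq_of_sum {ι : Type} (s : Finset ι) (z : ι → ℂ) (C : ℝ) (hz : ∀ i ∈ s, ‖z i‖ ≤ C)
    (hsum : ∑ i ∈ s, z i = s.card * C) : ∀ i ∈ s, z i = C := by
  have h1 : ∑ i ∈ s, (C - (z i).re) = 0 := by
    rw [sum_sub_distrib, sum_const, nsmul_eq_mul, ← Complex.re_sum, hsum]
    simp
  have h2 : ∀ i ∈ s, 0 ≤ C - (z i).re := fun i hi =>
    sub_nonneg.2 ((Complex.re_le_norm _).trans (hz i hi))
  intro i hi
  have h3 := (sum_eq_zero_iff_of_nonneg h2).1 h1 i hi
  have h4 : (z i).re = C := by linarith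
  have h5 : (z i).im = 0 := by
    have h6 := Complex.sq_norm (z i)
    rw [Complex.normSq_apply] at h6
    have h7 : ‖z i‖ ^ 2 ≤ C ^ 2 := pow_le_pow_left₀ (norm_nonneg _) (hz i hi) 2
    rw [← h4] at h7
    nlinarith
  apply Complex.ext
  · rw [h4, Complex.ofReal_re]
  · rw [h5, Complex.ofReal_im]

/-- the equality case, for a sum of pairs -/
theorem eq_of_sum_pairs (n : ℕ) (z w : ℕ → ℂ) (C : ℝ) (hz : ∀ i < n, ‖z i‖ ≤ C)
    (hw : ∀ i < n, ‖w i‖ ≤ C) (hsum : ∑ i ∈ range n, (z i + w i) = 2 * n * C) (i : ℕ)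
    (hi : i < n) : w i = C := by
  have h1 := eq_of_sum (range n ×ˢ (univ : Finset Bool)) (fun x => if x.2 then z x.1 else w x.1) C
    (by
      rintro ⟨j, b⟩ hj
      rw [mem_product, mem_range] at hj
      cases b
      · exact hw j hj.1
      · exact hz j hj.1)
    (by
      rw [sum_product]
      simp only [Fintype.sum_bool, if_true, card_product, card_range, Fintype.card_bool,
        card_univ]
      simp only [Bool.false_eq_true, if_false]
      rw [hsum]
      push_cast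
      ring)
  have h2 := h1 (i, false) (by rw [mem_product, mem_range]; exact ⟨hi, mem_univ _⟩)
  simpa using h2

end

section

variable {F : Type} [Field F] [Fintype F] [DecidableEq F] {E : Type} [Field E] [Fintype E]
  [DecidableEq E] [Algebra F E] {K : Type} [Field K]

theorem res_eq [CharZero K] (h2 : ringChar F ≠ 2) (h2E : ringChar E ≠ 2)
    (hE : Module.finrank F E = 2) (hF4 : Fintype.card F % 4 = 1) {T : MulChar E K} {ℓ : ℕ}
    (hℓ : Odd ℓ) (hT : orderOf T = 4 * ℓ) (hd : ℓ ∣ Fintype.card F + 1) {b : ℕ} (hb : Odd b)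
    (c : F) (hc : c ≠ 0) : (T ^ b) (algebraMap F E c) = qc F K c := by
  obtain ⟨g, hg0, hg, hgp⟩ := exists_gen (E := E)
  have hc' : algebraMap F E c ≠ 0 := by rwa [Ne, map_eq_zero]
  obtain ⟨k, hk⟩ := hg _ hc'
  have hQ : 1 < Fintype.card F := Fintype.one_lt_card
  have h1 : (algebraMap F E c) ^ (Fintype.card F - 1) = 1 := by
    rw [← map_pow, FiniteField.pow_card_sub_one_eq_one c hc, map_one]
  rw [hk, ← pow_mul] at h1
  have h5 := hgp.dvd_of_pow_eq_one _ h1
  have h3 : Fintype.card E - 1 = (Fintype.card F + 1) * (Fintype.card F - 1) := by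
    rw [card_E hE]
    have := Nat.sq_sub_sq (Fintype.card F) 1
    rwa [one_pow] at this
  rw [h3] at h5
  obtain ⟨j, hj⟩ := Nat.dvd_of_mul_dvd_mul_right (by omega : 0 < Fintype.card F - 1) h5
  have hcN : c = Algebra.norm F g ^ j := by
    apply (algebraMap F E).injective
    rw [map_pow, nm_eq hE, hk, hj, ← pow_mul]
  have hp := key_prim T hg0 hg hT
  have hμ : T g ^ (Fintype.card F + 1) = -1 := by
    obtain ⟨m, hm⟩ := hd
    have hm2 : m % 4 = 2 ∨ m % 4 = 2 := by
      obtain ⟨r, hr⟩ := hℓ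
      have h6 : (ℓ * m) % 4 = 2 := by omega
      have h7 : ((ℓ % 4) * (m % 4)) % 4 = 2 := by rw [← Nat.mul_mod, h6]
      have h8 : ℓ % 4 = 1 ∨ ℓ % 4 = 3 := by omega
      have h9 : m % 4 = 0 ∨ m % 4 = 1 ∨ m % 4 = 2 ∨ m % 4 = 3 := by omega
      rcases h8 with h8 | h8 <;> rcases h9 with h9 | h9 | h9 | h9 <;>
        simp [h8, h9] at h7 ⊢
    have h4 : m % 4 = 2 := by tauto
    obtain ⟨r, hr⟩ : ∃ r, m = 2 * (2 * r + 1) := ⟨m / 4, by omega⟩
    have e1 : (T g ^ (2 * ℓ)) ^ 2 = 1 := by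
      rw [← pow_mul, show 2 * ℓ * 2 = 4 * ℓ by ring, hp.pow_eq_one]
    have e2 : T g ^ (2 * ℓ) ≠ 1 := by
      intro h
      have h6 := Nat.le_of_dvd (by have := hℓ.pos; omega) (hp.dvd_of_pow_eq_one _ h)
      have := hℓ.pos
      omega
    have e3 : T g ^ (2 * ℓ) = -1 := by
      have h5 : (T g ^ (2 * ℓ) - 1) * (T g ^ (2 * ℓ) + 1) = 0 := by linear_combination e1
      rcases mul_eq_zero.1 h5 with h | h
      · exact absurd (sub_eq_zero.1 h) e2
      · linear_combination h
    rw [hm, hr, show ℓ * (2 * (2 * r + 1)) = (2 * ℓ) * (2 * r + 1) by ring, pow_mul, e3]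
    rw [Odd.neg_one_pow ⟨r, rfl⟩]
  have hqg : qc F K (Algebra.norm F g) = -1 := by
    rw [qc_norm h2 h2E hE g hg0, ← T_half h2E hℓ hT, pow_applyK T _ hg0]
    have e1 : (T g ^ (2 * ℓ)) ^ 2 = 1 := by
      rw [← pow_mul, show 2 * ℓ * 2 = 4 * ℓ by ring, hp.pow_eq_one]
    have e2 : T g ^ (2 * ℓ) ≠ 1 := by
      intro h
      have h6 := Nat.le_of_dvd (by have := hℓ.pos; omega) (hp.dvd_of_pow_eq_one _ h)
      have := hℓ.pos
      omega
    have h5 : (T g ^ (2 * ℓ) - 1) * (T g ^ (2 * ℓ) + 1) = 0 := by linear_combination e1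
    rcases mul_eq_zero.1 h5 with h | h
    · exact absurd (sub_eq_zero.1 h) e2
    · linear_combination h
  rw [pow_applyK T _ hc', hk, hj, map_pow, pow_mul, hμ, hcN, map_pow, hqg, ← pow_mul, mul_comm,
    pow_mul, hb.neg_one_pow]

theorem gauss_rel [CharZero K] (h2 : ringChar F ≠ 2) (T : MulChar E K)
    (hres : ∀ c : F, c ≠ 0 → T (algebraMap F E c) = qc F K c) (ψ : AddChar F K)
    (ψ' : AddChar E K) (hψ : ∀ y, ψ' y = ψ (Algebra.trace F E y)) :
    gaussSum (qc F K) ψ * RR F T = ((Fintype.card F - 1 : ℕ) : K) * gaussSum T ψ' := by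
  have hinv : (qc F K)⁻¹ = qc F K := qc_quad.inv
  have h1 : ∀ a : F, gaussSum (qc F K) ψ * qc F K a = ∑ c : F, qc F K c * ψ (c * a) := by
    intro a
    by_cases ha : a = 0
    · subst ha
      rw [MulChar.map_zero, mul_zero]
      simp only [mul_zero, AddChar.map_zero_eq_one, mul_one]
      exact (MulChar.sum_eq_zero_of_ne_one (qc_ne_one h2)).symm
    · have h3 := gaussSum_mulShift_eq (qc F K) ψ (Units.mk0 a ha)
      rw [hinv, Units.val_mk0] at h3
      rw [mul_comm, ← h3]
      unfold gaussSum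
      refine sum_congr rfl fun c _ => ?_
      rw [AddChar.mulShift_apply, mul_comm c a]
  have h3 : ∀ c : F, qc F K c * ∑ w : E, T w * ψ' (algebraMap F E c * w) =
      if c = 0 then 0 else gaussSum T ψ' := by
    intro c
    split_ifs with hc
    · rw [hc, MulChar.map_zero, zero_mul]
    · have hc' : algebraMap F E c ≠ 0 := by rwa [Ne, map_eq_zero]
      have h4 := gaussSum_mulShift_eq T ψ' (Units.mk0 _ hc')
      rw [Units.val_mk0] at h4
      have h5 : ∑ w : E, T w * ψ' (algebraMap F E c * w) = gaussSum T (ψ'.mulShift (algebraMap F E c)) := by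
        unfold gaussSum
        refine sum_congr rfl fun w _ => ?_
        rw [AddChar.mulShift_apply]
      rw [h5, h4, ← mul_assoc, MulChar.inv_apply_eq_inv', hres c hc, mul_inv_cancel₀, one_mul]
      intro h6
      have := qc_sq (K := K) hc
      rw [h6] at this
      norm_num at this
  unfold RR
  rw [mul_sum]
  calc ∑ w : E, gaussSum (qc F K) ψ * (qc F K (Algebra.trace F E w) * T w)
      = ∑ w : E, ∑ c : F, qc F K c * (T w * ψ' (algebraMap F E c * w)) := by
        refine sum_congr rfl fun w _ => ?_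
        rw [← mul_assoc, h1, sum_mul]
        refine sum_congr rfl fun c _ => ?_
        rw [hψ, ← Algebra.smul_def, map_smul, smul_eq_mul]
        ring
    _ = ∑ c : F, qc F K c * ∑ w : E, T w * ψ' (algebraMap F E c * w) := by
        rw [sum_comm]
        refine sum_congr rfl fun c _ => ?_
        rw [mul_sum]
    _ = ∑ c : F, (if c = 0 then 0 else gaussSum T ψ') := sum_congr rfl fun c _ => h3 c
    _ = ((Fintype.card F - 1 : ℕ) : K) * gaussSum T ψ' := by
        rw [sum_ite, sum_const_zero, zero_add, sum_const, nsmul_eq_mul]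
        congr 2
        rw [filter_ne', card_erase_of_mem (mem_univ _), card_univ]

end

end Pool.Agent.R415.CH
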