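import Mathlib
import Pool.Agent.R415.CH.Bounds

/-!
# Maximality forces the values of all Jacobi, resp. Eisenstein sums
-/

set_option autoImplicit false
set_option linter.unusedSectionVars false

namespace Pool.Agent.R415.CH

open Finset Polynomial

section

variable {F : Type} [Field F] [Fintype F] [DecidableEq F] {E : Type} [Field E] [Fintype E]
  [DecidableEq E] [Algebra F E]

theorem bracket_one_zero {K : Type} [Field K] {ℓ : ℕ} (hc : Nat.Coprime ℓ (Fintype.card F - 1)) :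
    ∑ t ∈ univ.filter (fun t : F => t ≠ 0), Gs K (t ^ ℓ) -
        ∑ t ∈ univ.filter (fun t : F => t ≠ 0), Gs K t = 0 := by
  rw [sub_eq_zero]
  apply sum_pow_coprime card_pos hc
  · intro y hy
    rw [mem_filter] at hy
    exact FiniteField.pow_card_sub_one_eq_one y hy.2
  · intro y hy
    rw [mem_filter] at hy ⊢
    exact ⟨mem_univ _, pow_ne_zero _ hy.2⟩

theorem bracket_two_zero {K : Type} [Field K] {ℓ : ℕ} (hc : Nat.Coprime ℓ (Fintype.card F + 1)) :
    ∑ y ∈ univ.filter (fun y : E => y ^ (Fintype.card F + 1) = 1), Gn F K (y ^ ℓ) -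
        ∑ y ∈ univ.filter (fun y : E => y ^ (Fintype.card F + 1) = 1), Gn F K y = 0 := by
  rw [sub_eq_zero]
  apply sum_pow_coprime (Nat.succ_pos _) hc
  · intro y hy
    rw [mem_filter] at hy
    exact hy.2
  · intro y hy
    rw [mem_filter] at hy ⊢
    refine ⟨mem_univ _, ?_⟩
    rw [← pow_mul, mul_comm, pow_mul, hy.2, one_pow]

theorem cplx_one (h2 : ringChar F ≠ 2) (hE : Module.finrank F E = 2) {ℓ q : ℕ} (hℓ : Odd ℓ)
    (hℓ1 : 1 < ℓ) (hq : Fintype.card F = q ^ 2) (hc : Nat.Coprime ℓ (Fintype.card F + 1))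
    (hS : ∑ x : F, quadraticChar F ((dickson 1 (1 : F) ℓ).eval x) = (ℓ - 1) * q)
    (T : MulChar F ℂ) (hT : orderOf T = 4 * ℓ) : PP T = q := by
  have h1 := red (K := ℂ) h2 hE ℓ
  rw [bracket_two_zero hc, add_zero, exp_one h2 hℓ hT] at h1
  have h3 : ∑ x : F, qc F ℂ ((dickson 1 (1 : F) ℓ).eval x) = ((ℓ : ℂ) - 1) * q := by
    have h4 := congrArg (fun z : ℤ => (z : ℂ)) hS
    simp only [Int.cast_sum] at h4
    simp only [qc_apply]
    rw [h4]
    push_cast
    ring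
  rw [h3] at h1
  have hnorm : ∀ b : ℕ, Odd b → ‖PP (T ^ b)‖ ≤ (q : ℝ) := by
    intro b hb
    have h5 := norm_PP h2 hℓ hT hb
    rw [hq] at h5
    push_cast at h5
    exact le_of_eq ((sq_eq_sq₀ (norm_nonneg _) (Nat.cast_nonneg q)).1 h5)
  have h5 := eq_of_sum_pairs (ℓ - 1) (fun j => PP (T ^ (ℓ + 2 * (j + 1))))
    (fun j => PP (T ^ (3 * ℓ + 2 * (j + 1)))) q
    (fun j _ => hnorm _ (by rw [Nat.odd_iff] at hℓ ⊢; omega))
    (fun j _ => hnorm _ (by rw [Nat.odd_iff] at hℓ ⊢; omega)) (by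
      rw [← h1]
      rw [Nat.cast_sub hℓ1.le]
      push_cast
      ring) ((ℓ - 1) / 2) (by rw [Nat.odd_iff] at hℓ; omega)
  have h6 : 3 * ℓ + 2 * ((ℓ - 1) / 2 + 1) = 4 * ℓ + 1 := by
    rw [Nat.odd_iff] at hℓ
    omega
  simp only [h6] at h5
  rw [pow_succ, ← hT, pow_orderOf_eq_one, one_mul] at h5
  rw [h5]
  simp

theorem cplx_two (h2 : ringChar F ≠ 2) (h2E : ringChar E ≠ 2) (hE : Module.finrank F E = 2)
    {ℓ q : ℕ} (hℓ : Odd ℓ)
    (hℓ1 : 1 < ℓ) (hq : Fintype.card F = q ^ 2) (hF4 : Fintype.card F % 4 = 1)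
    (hd : ℓ ∣ Fintype.card F + 1) (hc : Nat.Coprime ℓ (Fintype.card F - 1))
    (hS : ∑ x : F, quadraticChar F ((dickson 1 (1 : F) ℓ).eval x) = (ℓ - 1) * q)
    (T : MulChar E ℂ) (hT : orderOf T = 4 * ℓ) : RR F T = ((Fintype.card F - 1) * q : ℕ) := by
  have h1 := red (K := ℂ) h2 hE ℓ
  rw [bracket_one_zero hc, zero_add] at h1
  have h1' := exp_two (K := ℂ) h2 h2E hE hℓ hT
  rw [← h1] at h1'
  have h3 : ∑ x : F, qc F ℂ ((dickson 1 (1 : F) ℓ).eval x) = ((ℓ : ℂ) - 1) * q := by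
    have h4 := congrArg (fun z : ℤ => (z : ℂ)) hS
    simp only [Int.cast_sum] at h4
    simp only [qc_apply]
    rw [h4]
    push_cast
    ring
  rw [h3] at h1'
  set ψ := AddChar.FiniteField.primitiveChar_to_Complex F with hψdef
  have hψ := AddChar.FiniteField.primitiveChar_to_Complex_isPrimitive F
  set ψ' : AddChar E ℂ := ψ.compAddMonoidHom (Algebra.trace F E).toAddMonoidHom with hψ'
  have hψ'a : ∀ y, ψ' y = ψ (Algebra.trace F E y) := fun y => rfl
  have hψ'p : ψ'.IsPrimitive := by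
    apply AddChar.IsPrimitive.of_ne_one
    have h5 : ψ ≠ 1 := by
      intro h0
      have h6 := hψ one_ne_zero
      rw [← hψdef, h0] at h6
      apply h6
      ext x
      simp [AddChar.mulShift_apply]
    rw [AddChar.ne_one_iff] at h5 ⊢
    obtain ⟨x, hx⟩ := h5
    obtain ⟨y, hy⟩ := Algebra.trace_surjective F E x
    exact ⟨y, by rw [hψ'a, hy]; exact hx⟩
  have hnorm : ∀ b : ℕ, Odd b → ‖RR F (T ^ b)‖ ≤ (((Fintype.card F - 1) * q : ℕ) : ℝ) := by
    intro b hb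
    have hne : T ^ b ≠ 1 := by
      intro h
      have h1 := orderOf_dvd_of_pow_eq_one h
      rw [hT] at h1
      obtain ⟨k, hk⟩ := h1
      rw [Nat.odd_iff] at hb
      have : b = 2 * (2 * (ℓ * k)) := by rw [hk]; ring
      omega
    have h5 := gauss_rel (K := ℂ) h2 (T ^ b) (fun c hc => res_eq h2 h2E hE hF4 hℓ hT hd hb c hc)
      ψ ψ' hψ'a
    have h6 := congrArg norm h5
    rw [norm_mul, norm_mul, Complex.norm_natCast] at h6
    have h7 := norm_gauss (qc F ℂ) (qc_ne_one h2) ψ hψ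
    have h8 := norm_gauss (T ^ b) hne ψ' hψ'p
    rw [hq] at h7
    rw [card_E hE, hq] at h8
    have h9 : ‖gaussSum (qc F ℂ) ψ‖ = q := by
      push_cast at h7
      exact (sq_eq_sq₀ (norm_nonneg _) (Nat.cast_nonneg q)).1 h7
    have h10 : ‖gaussSum (T ^ b) ψ'‖ = (q : ℝ) ^ 2 := by
      push_cast at h8
      exact (sq_eq_sq₀ (norm_nonneg _) (by positivity)).1 h8
    rw [h9, h10] at h6
    have hq0 : (0 : ℝ) < q := by
      have : 0 < q := by
        rcases Nat.eq_zero_or_pos q with h | h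
        · rw [h] at hq
          have := Fintype.card_pos (α := F)
          omega
        · exact h
      exact_mod_cast this
    have h11 : ‖RR F (T ^ b)‖ = ((Fintype.card F - 1 : ℕ) : ℝ) * q := by
      apply mul_left_cancel₀ hq0.ne'
      rw [h6]
      ring
    rw [h11]
    push_cast
    exact le_rfl
  have h5 := eq_of_sum_pairs (ℓ - 1) (fun j => RR F (T ^ (ℓ + 2 * (j + 1))))
    (fun j => RR F (T ^ (3 * ℓ + 2 * (j + 1)))) (((Fintype.card F - 1) * q : ℕ) : ℝ)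
    (fun j _ => hnorm _ (by rw [Nat.odd_iff] at hℓ ⊢; omega))
    (fun j _ => hnorm _ (by rw [Nat.odd_iff] at hℓ ⊢; omega)) (by
      rw [← h1']
      rw [Nat.cast_sub hℓ1.le]
      push_cast
      ring) ((ℓ - 1) / 2) (by rw [Nat.odd_iff] at hℓ; omega)
  have h6 : 3 * ℓ + 2 * ((ℓ - 1) / 2 + 1) = 4 * ℓ + 1 := by
    rw [Nat.odd_iff] at hℓ
    omega
  simp only [h6] at h5
  rw [pow_succ, ← hT, pow_orderOf_eq_one, one_mul] at h5
  rw [h5]
  simp

theorem cplx_zero (h2 : ringChar F ≠ 2) (hE : Module.finrank F E = 2) {ℓ : ℕ}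
    (hc1 : Nat.Coprime ℓ (Fintype.card F - 1)) (hc2 : Nat.Coprime ℓ (Fintype.card F + 1)) :
    ∑ x : F, quadraticChar F ((dickson 1 (1 : F) ℓ).eval x) = 0 := by
  have h1 := red (K := ℚ) h2 hE ℓ
  rw [bracket_one_zero hc1, bracket_two_zero hc2, add_zero] at h1
  simp only [qc_apply] at h1
  rw [← Int.cast_sum] at h1
  have h3 := (mul_eq_zero.1 h1).resolve_left two_ne_zero
  exact_mod_cast h3

end

end Pool.Agent.R415.CH
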