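import Mathlib

/-!
# Integer values of character sums do not depend on the field of values
-/

set_option autoImplicit false
set_option linter.unusedSectionVars false

namespace Pool.Agent.R415.CH

open Finset Polynomial

variable {E : Type} [Field E] [Fintype E] [DecidableEq E]

open Classical in
/-- The polynomial whose values are the character sums. -/
noncomputable def sumPoly (a : E → E) (c : E → ℤ) (g : E) : ℤ[X] :=
  ∑ x : E, Polynomial.C (c x) * if h : ∃ n : ℕ, a x = g ^ n then X ^ (Classical.choose h) else 0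

theorem aeval_sumPoly {K : Type} [Field K] [CharZero K] (a : E → E) (c : E → ℤ) {g : E}
    (hg0 : g ≠ 0) (hg : ∀ y : E, y ≠ 0 → ∃ n : ℕ, y = g ^ n) (χ : MulChar E K) :
    aeval (χ g) (sumPoly a c g) = ∑ x, (c x : K) * χ (a x) := by
  unfold sumPoly
  rw [map_sum]
  refine sum_congr rfl fun x _ => ?_
  rw [map_mul, aeval_C]
  by_cases h0 : a x = 0
  · rw [dif_neg, map_zero, h0, MulChar.map_zero]
    · simp
    · rintro ⟨n, hn⟩
      rw [h0] at hn
      exact pow_ne_zero n hg0 hn.symm
  · have h : ∃ n : ℕ, a x = g ^ n := hg _ h0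
    rw [dif_pos h, map_pow, aeval_X, ← map_pow]
    have e := congrArg χ (Classical.choose_spec h).symm
    rw [e]
    simp

theorem transfer {K K' : Type} [Field K] [CharZero K] [Field K'] [CharZero K']
    (χ : MulChar E K) (χ' : MulChar E K') (N : ℕ) (hN : 0 < N) (h1 : orderOf χ = N)
    (h2 : orderOf χ' = N) (a : E → E) (c : E → ℤ) (C : ℤ)
    (h : ∑ x, (c x : K) * χ (a x) = C) : ∑ x, (c x : K') * χ' (a x) = C := by
  obtain ⟨g, hg⟩ := IsCyclic.exists_generator (α := Eˣ)
  have hg' : ∀ y : E, y ≠ 0 → ∃ a : ℕ, y = (g : E) ^ a := by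
    intro y hy
    obtain ⟨a, ha⟩ := (mem_powers_iff_mem_zpowers.2 (hg (Units.mk0 y hy)))
    refine ⟨a, ?_⟩
    have h3 := congrArg (fun u : Eˣ => (u : E)) ha
    simp only [Units.val_pow_eq_pow_val, Units.val_mk0] at h3
    exact h3.symm
  have key : ∀ {F : Type} [Field F] [CharZero F] (ξ : MulChar E F), orderOf ξ = N →
      IsPrimitiveRoot (ξ g) N := by
    intro F _ _ ξ hξ
    have h3 : ∀ m : ℕ, ξ g ^ m = 1 ↔ ξ ^ m = 1 := by
      intro m
      constructor
      · intro h4
        ext u
        obtain ⟨a, ha⟩ := mem_powers_iff_mem_zpowers.2 (hg u)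
        rw [← ha]
        simp only [Units.val_pow_eq_pow_val, map_pow, MulChar.pow_apply_coe, h4, one_pow]
        rw [MulChar.one_apply_coe, one_pow]
      · intro h4
        rw [← MulChar.pow_apply_coe, h4, MulChar.one_apply_coe]
    refine ⟨?_, ?_⟩
    · rw [h3, ← hξ, pow_orderOf_eq_one]
    · intro m hm
      rw [h3] at hm
      rw [← hξ]
      exact orderOf_dvd_of_pow_eq_one hm
  have hp1 := key χ h1
  have hp2 := key χ' h2
  have h5 : aeval (χ g) (sumPoly a c (g : E) - Polynomial.C C) = 0 := by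
    rw [map_sub, aeval_sumPoly a c g.ne_zero hg', h, aeval_C]
    simp
  have h6 : cyclotomic N ℤ ∣ sumPoly a c (g : E) - Polynomial.C C := by
    rw [cyclotomic_eq_minpoly hp1 hN]
    exact minpoly.isIntegrallyClosed_dvd (hp1.isIntegral hN) h5
  obtain ⟨R, hR⟩ := h6
  have h7 : aeval (χ' g) (sumPoly a c (g : E) - Polynomial.C C) = 0 := by
    rw [hR, map_mul]
    have h8 : aeval (χ' g) (cyclotomic N ℤ) = 0 := by
      rw [cyclotomic_eq_minpoly hp2 hN, minpoly.aeval]
    rw [h8, zero_mul]
  rw [map_sub, aeval_sumPoly a c g.ne_zero hg', aeval_C, sub_eq_zero] at h7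
  rw [h7]
  simp

end Pool.Agent.R415.CH
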