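import Mathlib
import Pool.Agent.R415.CH.Bounds
import Pool.Agent.R415.CH.Transfer
import Pool.Agent.R415.CH.Arith
import Pool.Agent.Y145.DI.Stick

/-!
# The p-adic absolute values of the Gauss sums
-/

set_option autoImplicit false
set_option linter.unusedSectionVars false

namespace Pool.Agent.R415.CH

open Finset Polynomial Pool.Agent.Y145.DI

section

variable {p : ℕ} [Fact p.Prime]

instance : CharZero (PadicAlgCl p) := inferInstance

theorem norm_one_of_pow {x : PadicAlgCl p} {n : ℕ} (hn : n ≠ 0) (h : x ^ n = 1) : ‖x‖ = 1 := by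
  have h2 := congrArg norm h
  rw [norm_pow, norm_one] at h2
  exact (pow_eq_one_iff_of_nonneg (norm_nonneg _) hn).1 h2

theorem norm_qc_gauss {F : Type} [Field F] [Fintype F] [DecidableEq F] (h2 : ringChar F ≠ 2)
    (ψ : AddChar F (PadicAlgCl p)) (hψ : ψ.IsPrimitive) {f : ℕ}
    (hF : Fintype.card F = (p ^ f) ^ 2) :
    ‖gaussSum (qc F (PadicAlgCl p)) ψ‖ = ‖((p : ℕ) : PadicAlgCl p)‖ ^ f := by
  have h1 := gaussSum_sq (qc_ne_one (K := PadicAlgCl p) h2) qc_quad hψ
  have h3 := congrArg norm h1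
  rw [norm_pow, norm_mul, norm_one_of_pow two_ne_zero (qc_sq (neg_ne_zero.2 one_ne_zero)),
    one_mul, hF] at h3
  push_cast at h3
  rw [norm_pow, norm_pow] at h3
  exact (sq_eq_sq₀ (norm_nonneg _) (pow_nonneg (norm_nonneg _) _)).1 h3

theorem pow_norm_inj {a b : ℕ}
    (h : ‖((p : ℕ) : PadicAlgCl p)‖ ^ a = ‖((p : ℕ) : PadicAlgCl p)‖ ^ b) : a = b := by
  obtain ⟨h0, h1⟩ := norm_p_lt (p := p)
  exact (pow_right_injective₀ h0 h1.ne) h

theorem order_inv_pow {X : Type} [Field X] [Fintype X] (T : MulChar X (PadicAlgCl p)) {N b : ℕ}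
    (hT : orderOf T = N) (hb : Nat.Coprime b N) : orderOf (T ^ b)⁻¹ = N := by
  rw [orderOf_inv, Nat.Coprime.orderOf_pow (by rw [hT]; exact hb.symm), hT]

/-- Case `ℓ ∣ #F - 1`. -/
theorem padic_one {F : Type} [Field F] [Fintype F] [DecidableEq F] [CharP F p]
    (h2 : ringChar F ≠ 2) {ℓ f : ℕ} (hℓ : Odd ℓ) (hf : 0 < f)
    (hF : Fintype.card F = (p ^ f) ^ 2) (hd : 4 * ℓ ∣ Fintype.card F - 1)
    (hP : ∀ T : MulChar F ℂ, orderOf T = 4 * ℓ → PP T = (p ^ f : ℕ)) (b : ℕ)
    (hb : Nat.Coprime b (4 * ℓ)) (hb1 : b < 4 * ℓ) :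
    expo p (4 * ℓ) (2 * f) b = expo p (4 * ℓ) (2 * f) ((b + 2 * ℓ) % (4 * ℓ)) := by
  have hl0 := hℓ.pos
  have hbodd : Odd b := by
    have h3 := Nat.Coprime.coprime_mul_right_right hb
    have h4 : Nat.Coprime b 2 := Nat.Coprime.coprime_dvd_right (by norm_num) h3
    exact Nat.coprime_two_right.1 h4
  obtain ⟨w, ψ, hψ, hψc, hw, ho⟩ := exists_wp (p := p) F
  set N := 4 * ℓ with hN
  set T := w ^ ((Fintype.card F - 1) / N) with hTdef
  have hQ := card_pos (E := F)
  have hd0 : (Fintype.card F - 1) / N ≠ 0 := by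
    have := Nat.div_pos (Nat.le_of_dvd hQ hd) (by omega : 0 < N)
    omega
  have hT : orderOf T = N := by
    rw [hTdef, orderOf_pow_of_dvd hd0 (by rw [ho]; exact Nat.div_dvd_of_dvd hd), ho,
      Nat.div_div_self hd (by omega)]
  have hF' : Fintype.card F = p ^ (2 * f) := by rw [hF, ← pow_mul, mul_comm]
  set lam := (T ^ b)⁻¹ with hlam
  have hlo : orderOf lam = N := order_inv_pow T hT hb
  -- a complex character of order N
  obtain ⟨T0, hT0⟩ := MulChar.exists_mulChar_orderOf F (n := N) hd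
    (Complex.isPrimitiveRoot_exp N (by omega))
  have h3 := hP T0 hT0
  have h4 : PP lam = (p ^ f : ℕ) := by
    have h5 := transfer (E := F) T0 lam N (by omega) hT0 hlo (fun u => u)
      (fun u => quadraticChar F (1 + u)) ((p ^ f : ℕ) : ℤ) (by
        have : PP T0 = ∑ x : F, ((quadraticChar F (1 + x) : ℤ) : ℂ) * T0 x := rfl
        rw [← this, h3]
        push_cast
        rfl)
    have : PP lam = ∑ x : F, ((quadraticChar F (1 + x) : ℤ) : PadicAlgCl p) * lam x := rfl
    rw [this, h5]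
    push_cast
    rfl
  rw [PP_eq] at h4
  have hm1 : ‖lam (-1)‖ = 1 := by
    apply norm_one_of_pow (n := 2) two_ne_zero
    rw [← map_pow, neg_one_sq, map_one]
  have h5 : ‖jacobiSum lam (qc F (PadicAlgCl p))‖ = ‖((p : ℕ) : PadicAlgCl p)‖ ^ f := by
    have h6 := congrArg norm h4
    rw [norm_mul, hm1, one_mul] at h6
    rw [h6]
    push_cast
    rw [norm_pow]
  have hTq : T ^ (2 * ℓ) = qc F (PadicAlgCl p) := T_half h2 hℓ hT
  have hinv : (qc F (PadicAlgCl p))⁻¹ = qc F (PadicAlgCl p) := qc_quad.inv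
  have hlq : lam * qc F (PadicAlgCl p) = (T ^ ((b + 2 * ℓ) % N))⁻¹ := by
    rw [← hinv, ← hTq, hlam, ← mul_inv, ← pow_add]
    congr 1
    rw [← hT, pow_mod_orderOf]
  have hb' : Nat.Coprime ((b + 2 * ℓ) % N) N := by
    rw [Nat.coprime_iff_gcd_eq_one, ← Nat.gcd_rec, Nat.gcd_comm]
    apply Nat.Coprime.mul_right
    · have h9 : Odd (b + 2 * ℓ) := by
        rw [Nat.odd_iff] at hbodd ⊢
        omega
      exact Nat.Coprime.pow_right 2 (Nat.coprime_two_right.2 h9)
    · rw [Nat.coprime_add_mul_right_left]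
      exact Nat.Coprime.coprime_mul_left_right hb
  have hne : lam * qc F (PadicAlgCl p) ≠ 1 := by
    rw [hlq]
    intro h
    have h6 := order_inv_pow T hT hb'
    rw [h, orderOf_one] at h6
    omega
  have h6 := jacobiSum_mul_nontrivial hne ψ
  have h7 := congrArg norm h6
  rw [norm_mul, norm_mul, h5, norm_qc_gauss h2 ψ hψ hF, hlq] at h7
  have hp0 : 0 < ‖((p : ℕ) : PadicAlgCl p)‖ := (norm_p_lt (p := p)).1
  have h8 := mul_right_cancel₀ (pow_pos hp0 f).ne' h7
  have hb0 : 0 < b := hbodd.pos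
  have hb'0 : 0 < (b + 2 * ℓ) % N := by
    rcases Nat.eq_zero_or_pos ((b + 2 * ℓ) % N) with h | h
    · rw [h, Nat.coprime_zero_left] at hb'
      omega
    · exact h
  have e1 := norm_gauss_eq w ψ hψ hψc hw ho hF' hd (by omega) b hb0 hb1
  have e2 := norm_gauss_eq w ψ hψ hψc hw ho hF' hd (by omega) _ hb'0
    (Nat.mod_lt (b + 2 * ℓ) (by omega : 0 < N))
  rw [← hTdef] at e1 e2
  apply pow_norm_inj (p := p)
  rw [← e1, ← e2, h8]

/-- Case `ℓ ∣ #F + 1`. -/
theorem padic_two {F : Type} [Field F] [Fintype F] [DecidableEq F] [CharP F p]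
    {E : Type} [Field E] [Fintype E] [DecidableEq E] [Algebra F E] [CharP E p]
    (hp2 : p ≠ 2)
    (h2 : ringChar F ≠ 2) (h2E : ringChar E ≠ 2) (hE : Module.finrank F E = 2)
    {ℓ f : ℕ} (hℓ : Odd ℓ) (hf : 0 < f) (hF4 : Fintype.card F % 4 = 1)
    (hF : Fintype.card F = (p ^ f) ^ 2) (hdl : ℓ ∣ Fintype.card F + 1)
    (hP : ∀ T : MulChar E ℂ, orderOf T = 4 * ℓ → RR F T = ((Fintype.card F - 1) * p ^ f : ℕ))
    (b : ℕ) (hb : Nat.Coprime b (4 * ℓ)) (hb1 : b < 4 * ℓ) :
    expo p (4 * ℓ) (4 * f) b = 2 * f * (4 * ℓ) := by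
  have hl0 := hℓ.pos
  have hbodd : Odd b := by
    have h3 := Nat.Coprime.coprime_mul_right_right hb
    have h4 : Nat.Coprime b 2 := Nat.Coprime.coprime_dvd_right (by norm_num) h3
    exact Nat.coprime_two_right.1 h4
  obtain ⟨w, ψ', hψ', hψc, hw, ho⟩ := exists_wp (p := p) E
  set N := 4 * ℓ with hN
  have hcE : Fintype.card E = Fintype.card F ^ 2 := card_E hE
  have hQ1 : 1 < Fintype.card F := Fintype.one_lt_card
  have hd : N ∣ Fintype.card E - 1 := by
    have h3 : Fintype.card E - 1 = (Fintype.card F + 1) * (Fintype.card F - 1) := by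
      rw [hcE]
      have := Nat.sq_sub_sq (Fintype.card F) 1
      rwa [one_pow] at this
    rw [h3, hN, mul_comm 4 ℓ]
    exact Nat.mul_dvd_mul hdl (by omega)
  set T := w ^ ((Fintype.card E - 1) / N) with hTdef
  have hQ := card_pos (E := E)
  have hd0 : (Fintype.card E - 1) / N ≠ 0 := by
    have := Nat.div_pos (Nat.le_of_dvd hQ hd) (by omega : 0 < N)
    omega
  have hT : orderOf T = N := by
    rw [hTdef, orderOf_pow_of_dvd hd0 (by rw [ho]; exact Nat.div_dvd_of_dvd hd), ho,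
      Nat.div_div_self hd (by omega)]
  have hE' : Fintype.card E = p ^ (4 * f) := by
    rw [hcE, hF, ← pow_mul, ← pow_mul]
    congr 1
    ring
  set lam := (T ^ b)⁻¹ with hlam
  have hlo : orderOf lam = N := order_inv_pow T hT hb
  obtain ⟨T0, hT0⟩ := MulChar.exists_mulChar_orderOf E (n := N) hd
    (Complex.isPrimitiveRoot_exp N (by omega))
  have h3 := hP T0 hT0
  have h4 : RR F lam = ((Fintype.card F - 1) * p ^ f : ℕ) := by
    have h5 := transfer (E := E) T0 lam N (by omega) hT0 hlo (fun u => u)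
      (fun u => quadraticChar F (Algebra.trace F E u)) (((Fintype.card F - 1) * p ^ f : ℕ) : ℤ) (by
        have : RR F T0 = ∑ x : E, ((quadraticChar F (Algebra.trace F E x) : ℤ) : ℂ) * T0 x := rfl
        rw [← this, h3]
        push_cast
        rfl)
    have : RR F lam = ∑ x : E, ((quadraticChar F (Algebra.trace F E x) : ℤ) : PadicAlgCl p) *
        lam x := rfl
    rw [this, h5]
    push_cast
    rfl
  -- the additive character of F
  have h2E' := two_neE (E := E) h2
  set ψ : AddChar F (PadicAlgCl p) :=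
    ψ'.compAddMonoidHom ((AddMonoidHom.mulRight (2 : E)⁻¹).comp (algebraMap F E).toAddMonoidHom)
    with hψdef
  have hψa : ∀ x : F, ψ x = ψ' (algebraMap F E x * (2 : E)⁻¹) := fun x => rfl
  have hψQ : ∀ y : E, ψ' (y ^ Fintype.card F) = ψ' y := by
    have h5 : ∀ n : ℕ, ∀ y : E, ψ' (y ^ p ^ n) = ψ' y := by
      intro n
      induction n with
      | zero => intro y; rw [pow_zero, pow_one]
      | succ n ih => intro y; rw [pow_succ, pow_mul, hψc, ih]
    intro y
    rw [hF, ← pow_mul]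
    exact h5 _ y
  have hrel : ∀ y, ψ' y = ψ (Algebra.trace F E y) := by
    intro y
    rw [hψa, tr_eq hE]
    have h5 : y = (y + y ^ Fintype.card F) * (2 : E)⁻¹ + (y - y ^ Fintype.card F) * (2 : E)⁻¹ := by
      field_simp
      ring
    have h6 : ψ' ((y - y ^ Fintype.card F) * (2 : E)⁻¹) = 1 := by
      set z := (y - y ^ Fintype.card F) * (2 : E)⁻¹ with hz
      have h7 : z ^ Fintype.card F = -z := by
        have hfrob : ∀ a b : E, (a - b) ^ Fintype.card F = a ^ Fintype.card F -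
            b ^ Fintype.card F := by
          intro a b
          rw [hF, ← pow_mul]
          exact sub_pow_char_pow a b (f * 2)
        rw [hz, mul_pow, hfrob, ← pow_mul, ← sq, ← hcE, FiniteField.pow_card, inv_pow]
        have h8 : (2 : E) ^ Fintype.card F = 2 := by
          have : (2 : E) = algebraMap F E 2 := by rw [map_ofNat]
          rw [this, alg_pow]
        rw [h8]
        ring
      have h8 := hψQ z
      rw [h7] at h8
      have h9 : ψ' z * ψ' z = 1 := by
        nth_rewrite 1 [← h8]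
        rw [← AddChar.map_add_eq_mul, neg_add_cancel, AddChar.map_zero_eq_one]
      have h10 : ψ' z ^ p = 1 := by
        rw [← AddChar.map_nsmul_eq_pow, nsmul_eq_mul, CharP.cast_eq_zero, zero_mul,
          AddChar.map_zero_eq_one]
      obtain ⟨m, hm⟩ : ∃ m, p = 2 * m + 1 := by
        have h11 := (Fact.out : p.Prime).odd_of_ne_two hp2
        exact h11
      have h12 : ψ' z ^ p = ψ' z ^ (2 * m + 1) := congrArg _ hm
      rw [h12, pow_succ, pow_mul, sq, h9, one_pow, one_mul] at h10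
      exact h10
    nth_rewrite 1 [h5]
    rw [AddChar.map_add_eq_mul, h6, mul_one]
  have hψp : ψ.IsPrimitive := by
    apply AddChar.IsPrimitive.of_ne_one
    intro h0
    have h6 := hψ' one_ne_zero
    apply h6
    ext y
    rw [AddChar.mulShift_apply, one_mul, hrel, h0]
    rfl
  have hres : ∀ c : F, c ≠ 0 → lam (algebraMap F E c) = qc F (PadicAlgCl p) c := by
    intro c hc
    have := res_eq h2 h2E hE hF4 hℓ hlo hdl odd_one c hc
    rwa [pow_one] at this
  have h5 := gauss_rel h2 lam hres ψ ψ' hrel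
  rw [h4] at h5
  have hQ0 : ((Fintype.card F - 1 : ℕ) : PadicAlgCl p) ≠ 0 := by
    have : Fintype.card F - 1 ≠ 0 := by omega
    exact_mod_cast this
  have h6 : gaussSum (qc F (PadicAlgCl p)) ψ * ((p : ℕ) : PadicAlgCl p) ^ f = gaussSum lam ψ' := by
    apply mul_left_cancel₀ hQ0
    rw [← h5]
    push_cast
    ring
  have h7 := congrArg norm h6
  rw [norm_mul, norm_pow, norm_qc_gauss h2 ψ hψp hF] at h7
  have e1 := norm_gauss_eq w ψ' hψ' hψc hw ho hE' hd (by omega) b hbodd.pos hb1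
  rw [← hTdef, ← hlam, ← h7] at e1
  apply pow_norm_inj (p := p)
  rw [← e1]
  ring

end

end Pool.Agent.R415.CH
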