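import Mathlib
import Pool.Agent.R415.CH.Padic
import Pool.Agent.R415.CH.Cplx

/-!
# The final assembly
-/

set_option autoImplicit false
set_option linter.unusedSectionVars false

namespace Pool.Agent.R415.CH

open Finset Polynomial Pool.Agent.Y145.DI H916R2

theorem saw_expo (p N F : ℕ) [NeZero N] (hN : 1 < N) (hpN : Nat.Coprime p N) (b : ℕ)
    (hb : Nat.Coprime b N) :
    ∑ s ∈ range F, saw ((b : ZMod N) * (p : ZMod N) ^ s) = 2 * (expo p N F b : ℤ) - F * N := by
  have h1 : ∀ s, saw ((b : ZMod N) * (p : ZMod N) ^ s) = 2 * (((b * p ^ s) % N : ℕ) : ℤ) - N := by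
    intro s
    have h2 : ((b : ZMod N) * (p : ZMod N) ^ s) = ((b * p ^ s : ℕ) : ZMod N) := by push_cast; rfl
    have h3 : ((b * p ^ s : ℕ) : ZMod N) ≠ 0 := by
      intro h
      rw [ZMod.natCast_eq_zero_iff] at h
      have h4 : Nat.Coprime (b * p ^ s) N := Nat.Coprime.mul_left hb (Nat.Coprime.pow_left s hpN)
      have := Nat.Coprime.eq_one_of_dvd h4.symm h
      omega
    rw [h2]
    unfold saw
    rw [if_neg h3, ZMod.val_natCast]
  simp only [h1]
  unfold expo
  rw [sum_sub_distrib, ← mul_sum]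
  push_cast
  simp

theorem odd_of_cop {b ℓ : ℕ} (hb : Nat.Coprime b (4 * ℓ)) : Odd b := by
  have h3 := Nat.Coprime.coprime_mul_right_right hb
  have h4 : Nat.Coprime b 2 := Nat.Coprime.coprime_dvd_right (by norm_num) h3
  exact Nat.coprime_two_right.1 h4

theorem cop_shift {b ℓ : ℕ} (hb : Nat.Coprime b (4 * ℓ)) :
    Nat.Coprime ((b + 2 * ℓ) % (4 * ℓ)) (4 * ℓ) := by
  have hbodd := odd_of_cop hb
  rw [Nat.coprime_iff_gcd_eq_one, ← Nat.gcd_rec, Nat.gcd_comm]
  apply Nat.Coprime.mul_right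
  · have h9 : Odd (b + 2 * ℓ) := by
      rw [Nat.odd_iff] at hbodd ⊢
      omega
    exact Nat.Coprime.pow_right 2 (Nat.coprime_two_right.2 h9)
  · rw [Nat.coprime_add_mul_right_left]
    exact Nat.Coprime.coprime_mul_left_right hb

theorem arith_expo (ℓ p F : ℕ) [Fact ℓ.Prime] [NeZero (4 * ℓ)] (hℓ : ℓ % 4 = 1) (hp : p % 4 = 1)
    (hpl : ¬ ℓ ∣ p) (hF : 0 < F)
    (h : ∀ b : ℕ, Nat.Coprime b (4 * ℓ) → b < 4 * ℓ →
      expo p (4 * ℓ) F b = expo p (4 * ℓ) F ((b + 2 * ℓ) % (4 * ℓ))) :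
    orderOf (p : ZMod ℓ) = ℓ - 1 := by
  have hℓp : ℓ.Prime := Fact.out
  have hpcop : Nat.Coprime p ℓ := ((Nat.Prime.coprime_iff_not_dvd hℓp).2 hpl).symm
  have hpodd : Odd p := by rw [Nat.odd_iff]; omega
  have hpN : Nat.Coprime p (4 * ℓ) :=
    Nat.Coprime.mul_right (Nat.Coprime.pow_right 2 (Nat.coprime_two_right.2 hpodd)) hpcop
  have hN : 1 < 4 * ℓ := by have := hℓp.two_le; omega
  refine arith ℓ p F hℓ hp hpl hF fun b => ?_
  set B := (b : ZMod (4 * ℓ)).val with hB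
  have hbB : (b : ZMod (4 * ℓ)) = ((B : ℕ) : ZMod (4 * ℓ)) := by
    rw [hB, ZMod.natCast_zmod_val]
  have hBc : Nat.Coprime B (4 * ℓ) := ZMod.val_coe_unit_coprime b
  have hBl : B < 4 * ℓ := ZMod.val_lt _
  have hBo := odd_of_cop hBc
  rw [hbB]
  have h2 : ∀ s, ((B : ℕ) : ZMod (4 * ℓ)) * (((1 + 2 * ℓ : ℕ) : ZMod (4 * ℓ)) *
      (p : ZMod (4 * ℓ)) ^ s) = (((B + 2 * ℓ) % (4 * ℓ) : ℕ) : ZMod (4 * ℓ)) *
      (p : ZMod (4 * ℓ)) ^ s := by
    intro s
    rw [← mul_assoc]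
    congr 1
    rw [← Nat.cast_mul, ZMod.natCast_eq_natCast_iff]
    obtain ⟨k, hk⟩ := hBo
    have h3 : B * (1 + 2 * ℓ) = (B + 2 * ℓ) + (4 * ℓ) * k := by rw [hk]; ring
    rw [h3]
    unfold Nat.ModEq
    rw [Nat.add_mul_mod_self_left, Nat.mod_mod]
  simp only [h2]
  rw [saw_expo p (4 * ℓ) F hN hpN B hBc, saw_expo p (4 * ℓ) F hN hpN _ (cop_shift hBc),
    h B hBc hBl]

/-- The point count in terms of the quadratic character. -/
theorem points {F : Type} [Field F] [Fintype F] [DecidableEq F] (h2 : ringChar F ≠ 2)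
    (P : F[X]) :
    (Nat.card {v : F × F // v.2 ^ 2 = P.eval v.1} : ℤ) =
      Fintype.card F + ∑ x : F, quadraticChar F (P.eval x) := by
  have h1 : Nat.card {v : F × F // v.2 ^ 2 = P.eval v.1} =
      ∑ x : F, ({y : F | y ^ 2 = P.eval x}.toFinset).card := by
    rw [Nat.card_eq_fintype_card]
    have e : {v : F × F // v.2 ^ 2 = P.eval v.1} ≃ Σ x : F, {y : F // y ^ 2 = P.eval x} :=
      { toFun := fun v => ⟨v.1.1, ⟨v.1.2, v.2⟩⟩
        invFun := fun v => ⟨(v.1, v.2.1), v.2.2⟩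
        left_inv := fun v => rfl
        right_inv := fun v => rfl }
    rw [Fintype.card_congr e, Fintype.card_sigma]
    refine sum_congr rfl fun x _ => ?_
    rw [Fintype.card_subtype]
    congr 1
    ext y
    simp
  rw [h1]
  push_cast
  simp only [quadraticChar_card_sqrts h2]
  rw [sum_add_distrib, sum_const, card_univ]
  simp [add_comm]

theorem main {F : Type} [Field F] [Fintype F] [DecidableEq F] {ℓ p f : ℕ} (hℓp : ℓ.Prime)
    (hpp : p.Prime) (hne : ℓ ≠ p) (hℓ : ℓ % 4 = 1) (hp : p % 4 = 1) (hf : 0 < f)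
    (hF : Fintype.card F = p ^ (2 * f))
    (hS : ∑ x : F, quadraticChar F ((dickson 1 (1 : F) ℓ).eval x) = (ℓ - 1) * (p : ℤ) ^ f) :
    orderOf (p : ZMod ℓ) = ℓ - 1 := by
  have : Fact p.Prime := ⟨hpp⟩
  have : Fact ℓ.Prime := ⟨hℓp⟩
  have : NeZero (4 * ℓ) := ⟨by have := hℓp.pos; omega⟩
  have hcp : CharP F p := by
    obtain ⟨q, hq⟩ := CharP.exists F
    obtain ⟨n, hqp, hn⟩ := FiniteField.card F q
    have := hq
    have h1 : q = p := by
      have h2 : q ∣ p ^ (2 * f) := by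
        rw [← hF, hn]
        exact dvd_pow_self q n.ne_zero
      exact (Nat.prime_dvd_prime_iff_eq hqp hpp).1 (hqp.dvd_of_dvd_pow h2)
    rwa [h1] at hq
  have hrF : ringChar F = p := ringChar.eq F p
  have hp2 : p ≠ 2 := by rintro rfl; omega
  have h2 : ringChar F ≠ 2 := by rw [hrF]; exact hp2
  have hℓo : Odd ℓ := by rw [Nat.odd_iff]; omega
  have hpl : ¬ ℓ ∣ p := by
    intro h
    exact hne ((Nat.prime_dvd_prime_iff_eq hℓp hpp).1 h)
  have hF2 : Fintype.card F = (p ^ f) ^ 2 := by rw [hF, ← pow_mul, mul_comm]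
  have hF4 : Fintype.card F % 4 = 1 := by
    rw [hF, Nat.pow_mod, hp, one_pow]
    norm_num
  have hF1 : 1 < Fintype.card F := Fintype.one_lt_card
  have hℓ2 := hℓp.two_le
  have hℓ5 : 5 ≤ ℓ := by
    by_contra h
    interval_cases ℓ <;> omega
  -- the quadratic extension
  let E := FiniteField.Extension F p 2
  have : Fintype E := Fintype.ofFinite E
  have : DecidableEq E := Classical.decEq E
  have hE : Module.finrank F E = 2 := FiniteField.finrank_extension F p 2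
  have hcpE : CharP E p := charP_of_injective_algebraMap (algebraMap F E).injective p
  have hrE : ringChar E = p := ringChar.eq E p
  have h2E : ringChar E ≠ 2 := by rw [hrE]; exact hp2
  have hS' : ∑ x : F, quadraticChar F ((dickson 1 (1 : F) ℓ).eval x) =
      ((ℓ : ℤ) - 1) * ((p ^ f : ℕ) : ℤ) := by
    rw [hS]; push_cast; rfl
  have hnot : ¬ (ℓ ∣ Fintype.card F - 1 ∧ ℓ ∣ Fintype.card F + 1) := by
    rintro ⟨h3, h4⟩
    have h5 := Nat.dvd_sub h4 h3
    have h6 : Fintype.card F + 1 - (Fintype.card F - 1) = 2 := by omega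
    rw [h6] at h5
    have := Nat.le_of_dvd (by norm_num) h5
    omega
  by_cases h1 : ℓ ∣ Fintype.card F - 1
  · have hc : Nat.Coprime ℓ (Fintype.card F + 1) :=
      (Nat.Prime.coprime_iff_not_dvd hℓp).2 fun h => hnot ⟨h1, h⟩
    have hd : 4 * ℓ ∣ Fintype.card F - 1 := by
      apply Nat.Coprime.mul_dvd_of_dvd_of_dvd
      · exact Nat.Coprime.pow_left 2 (Nat.coprime_two_left.2 hℓo)
      · omega
      · exact h1
    refine arith_expo ℓ p (2 * f) hℓ hp hpl (by omega) fun b hb hb1 => ?_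
    exact padic_one h2 hℓo hf hF2 hd (fun T hT => by
      have := cplx_one h2 hE hℓo (by omega) hF2 hc hS' T hT
      exact this) b hb hb1
  · by_cases h3 : ℓ ∣ Fintype.card F + 1
    · have hc : Nat.Coprime ℓ (Fintype.card F - 1) := (Nat.Prime.coprime_iff_not_dvd hℓp).2 h1
      refine arith_expo ℓ p (4 * f) hℓ hp hpl (by omega) fun b hb hb1 => ?_
      have key := padic_two (p := p) (F := F) (E := E) hp2 h2 h2E hE hℓo hf hF4 hF2 h3
        (fun T hT => by
          have := cplx_two h2 h2E hE hℓo (by omega) hF2 hF4 h3 hc hS' T hT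
          exact this)
      rw [key b hb hb1, key _ (cop_shift hb) (Nat.mod_lt _ (by omega))]
    · exfalso
      have h4 := cplx_zero h2 hE (ℓ := ℓ) ((Nat.Prime.coprime_iff_not_dvd hℓp).2 h1)
        ((Nat.Prime.coprime_iff_not_dvd hℓp).2 h3)
      rw [hS] at h4
      have h5 : (0 : ℤ) < ((ℓ : ℤ) - 1) * (p : ℤ) ^ f := by
        apply mul_pos
        · have : (5 : ℤ) ≤ ℓ := by exact_mod_cast hℓ5
          linarith
        · have : (0 : ℤ) < p := by exact_mod_cast hpp.pos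
          positivity
      rw [h4] at h5
      exact lt_irrefl _ h5

end Pool.Agent.R415.CH
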